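import Mathlib

set_option autoImplicit false

namespace Pool.Agent.Helper15

open Finset

/-- Binomial coefficients of exponent one half are bounded by 1. -/
theorem abs_choose_half_le (j : ℕ) : |Ring.choose (1 / 2 : ℝ) j| ≤ 1 := by
  induction j with
  | zero => simp
  | succ j ih =>
    have h : ((j : ℝ) + 1) * Ring.choose (1 / 2 : ℝ) (j + 1) = (1 / 2 - j) * Ring.choose (1 / 2 : ℝ) j := by
      have h1 := Ring.descPochhammer_eq_factorial_smul_choose (1 / 2 : ℝ) (j + 1)
      have h2 := Ring.descPochhammer_eq_factorial_smul_choose (1 / 2 : ℝ) j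
      rw [descPochhammer_succ_right, Polynomial.smeval_mul, h2] at h1
      simp only [Polynomial.smeval_sub, Polynomial.smeval_X, Polynomial.smeval_natCast, pow_one, pow_zero, nsmul_eq_mul, mul_one, Nat.factorial_succ, Nat.cast_mul] at h1
      have hf : ((j.factorial : ℕ) : ℝ) ≠ 0 := by exact_mod_cast j.factorial_ne_zero
      push_cast at h1
      have h3 : ((j.factorial : ℕ) : ℝ) * (((j : ℝ) + 1) * Ring.choose (1 / 2 : ℝ) (j + 1)) = ((j.factorial : ℕ) : ℝ) * ((1 / 2 - j) * Ring.choose (1 / 2 : ℝ) j) := by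
        linarith
      exact mul_left_cancel₀ hf h3
    have hj : (0 : ℝ) < (j : ℝ) + 1 := by positivity
    have h' : Ring.choose (1 / 2 : ℝ) (j + 1) = ((1 / 2 - j) / ((j : ℝ) + 1)) * Ring.choose (1 / 2 : ℝ) j := by
      field_simp
      field_simp at h
      linarith
    rw [h', abs_mul]
    have : |(1 / 2 - (j : ℝ)) / ((j : ℝ) + 1)| ≤ 1 := by
      rw [abs_div, abs_of_pos hj, div_le_one hj, abs_le]
      constructor <;> nlinarith [(Nat.cast_nonneg j : (0 : ℝ) ≤ j)]
    calc _ ≤ 1 * 1 := mul_le_mul this ih (abs_nonneg _) zero_le_one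
      _ = 1 := one_mul 1

theorem hasSum_sqrt (y : ℝ) (hy : |y| < 1) :
    HasSum (fun j : ℕ => Ring.choose (1 / 2 : ℝ) j * y ^ j) (Real.sqrt (1 + y)) := by
  have h := Real.one_add_rpow_hasFPowerSeriesOnBall_zero (a := (1 / 2 : ℝ))
  have hmem : y ∈ Metric.eball (0 : ℝ) 1 := by
    rw [← ENNReal.ofReal_one, Metric.eball_ofReal]
    simpa using hy
  have h2 := h.hasSum hmem
  simp only [zero_add, ← Real.sqrt_eq_rpow] at h2
  have h3 : (fun n : ℕ => (binomialSeries ℝ (1 / 2 : ℝ) n) fun _ => y) =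
      (fun j : ℕ => Ring.choose (1 / 2 : ℝ) j * y ^ j) := by
    funext n
    rw [binomialSeries_apply]
    simp
  rw [h3] at h2
  exact h2

/-- Remainder estimate for the binomial series of the square root. -/
theorem sqrt_remainder (y : ℝ) (hy : |y| < 1) (k : ℕ) :
    |Real.sqrt (1 + y) - ∑ j ∈ range k, Ring.choose (1 / 2 : ℝ) j * y ^ j| ≤ |y| ^ k / (1 - |y|) := by
  have h := hasSum_sqrt y hy
  have hs := h.summable
  rw [← h.tsum_eq, ← hs.sum_add_tsum_nat_add k, add_sub_cancel_left]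
  have hg : HasSum (fun j : ℕ => |y| ^ k * |y| ^ j) (|y| ^ k / (1 - |y|)) := by
    have := (hasSum_geometric_of_lt_one (abs_nonneg y) hy).mul_left (|y| ^ k)
    simpa [div_eq_mul_inv] using this
  have key : ∀ j : ℕ, ‖Ring.choose (1 / 2 : ℝ) (j + k) * y ^ (j + k)‖ ≤ |y| ^ k * |y| ^ j := ?_
  · have := tsum_of_norm_bounded hg key
    simpa [Real.norm_eq_abs] using this
  intro j
  rw [Real.norm_eq_abs, abs_mul, abs_pow, add_comm j k, pow_add]
  have := abs_choose_half_le (k + j)
  calc _ ≤ 1 * (|y| ^ k * |y| ^ j) := mul_le_mul_of_nonneg_right this (by positivity)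
    _ = _ := one_mul _

end Pool.Agent.Helper15
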