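import Mathlib

set_option autoImplicit false

namespace Pool.Agent.Helper15

open Finset

/-- Rolle for finite zero sets on an order connected set. -/
theorem rolle_finset {g g' : ℝ → ℝ} {I : Set ℝ} (hI : I.OrdConnected)
    (hd : ∀ x ∈ I, HasDerivAt g (g' x) x) (Z : Finset ℝ) :
    (∀ z ∈ Z, z ∈ I) → (∀ z ∈ Z, g z = 0) →
    ∃ Z' : Finset ℝ, (∀ z ∈ Z', z ∈ I) ∧ (∀ z ∈ Z', g' z = 0) ∧
      (∀ z ∈ Z', ∃ w ∈ Z, z < w) ∧ Z.card ≤ Z'.card + 1 := by
  classical
  induction Z using Finset.induction_on_max with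
  | empty =>
    intro _ _
    exact ⟨∅, by simp, by simp, by simp, by simp⟩
  | insert a s ha ih =>
    intro hZI hZ0
    rcases s.eq_empty_or_nonempty with hs | hs
    · subst hs
      exact ⟨∅, by simp, by simp, by simp, by simp⟩
    · obtain ⟨Z', h1, h2, h3, h4⟩ := ih (fun z hz => hZI z (by simp [hz])) (fun z hz => hZ0 z (by simp [hz]))
      set m := s.max' hs with hm
      have hms : m ∈ s := s.max'_mem hs
      have hma : m < a := ha m hms
      have hmI : m ∈ I := hZI m (by simp [hms])
      have haI : a ∈ I := hZI a (by simp)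
      have hsub : Set.Icc m a ⊆ I := hI.out hmI haI
      have hcont : ContinuousOn g (Set.Icc m a) := fun x hx =>
        (hd x (hsub hx)).continuousAt.continuousWithinAt
      have hga : g m = g a := by rw [hZ0 m (by simp [hms]), hZ0 a (by simp)]
      obtain ⟨c, hc, hgc⟩ := exists_hasDerivAt_eq_zero hma hcont hga
        (fun x hx => hd x (hsub ⟨hx.1.le, hx.2.le⟩))
      have hcZ : c ∉ Z' := by
        intro hcin
        obtain ⟨w, hw, hcw⟩ := h3 c hcin
        have : w ≤ m := s.le_max' w hw
        linarith [hc.1]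
      refine ⟨insert c Z', ?_, ?_, ?_, ?_⟩
      · intro z hz
        rcases Finset.mem_insert.1 hz with rfl | hz
        · exact hsub ⟨hc.1.le, hc.2.le⟩
        · exact h1 z hz
      · intro z hz
        rcases Finset.mem_insert.1 hz with rfl | hz
        · exact hgc
        · exact h2 z hz
      · intro z hz
        rcases Finset.mem_insert.1 hz with rfl | hz
        · exact ⟨a, by simp, hc.2⟩
        · obtain ⟨w, hw, hzw⟩ := h3 z hz
          exact ⟨w, by simp [hw], hzw⟩
      · have hans : a ∉ s := fun h => lt_irrefl a (ha a h)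
        rw [Finset.card_insert_of_notMem hcZ, Finset.card_insert_of_notMem hans]
        omega

/-- The functions `(x + β i) ^ α`, with distinct `β i` and `α` not a natural number, form a Chebyshev
system: a nontrivial combination of `m` of them has fewer than `m` zeros. -/
theorem cheb {ι : Type*} [DecidableEq ι] (m : ℕ) : ∀ (s : Finset ι), s.card = m → ∀ (β : ι → ℝ),
    Set.InjOn β s → ∀ (c : ι → ℝ) (α : ℝ), (∀ j : ℕ, α ≠ j) → (∃ i ∈ s, c i ≠ 0) →
    ∀ Z : Finset ℝ, (∀ z ∈ Z, ∀ i ∈ s, 0 < z + β i) →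
    (∀ z ∈ Z, ∑ i ∈ s, c i * (z + β i) ^ α = 0) → Z.card < m := by
  induction m with
  | zero =>
    intro s hs β _ c α _ hc
    obtain ⟨i, hi, _⟩ := hc
    rw [Finset.card_eq_zero] at hs
    subst hs
    simp at hi
  | succ m ih =>
    intro s hs β hβ c α hα hc Z hpos hZ
    have hsne : s.Nonempty := by
      rw [← Finset.card_pos]; omega
    obtain ⟨i0, hi0⟩ := hsne
    by_cases hall : ∀ i ∈ s.erase i0, c i = 0
    · -- only one nonzero coefficient
      have hZe : Z = ∅ := by
        by_contra hne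
        obtain ⟨z, hz⟩ := Finset.nonempty_iff_ne_empty.2 hne
        have h0 := hZ z hz
        rw [← Finset.add_sum_erase s _ hi0] at h0
        rw [Finset.sum_eq_zero (fun i hi => by rw [hall i hi, zero_mul]), add_zero] at h0
        have hp : 0 < (z + β i0) ^ α := Real.rpow_pos_of_pos (hpos z hz i0 hi0) _
        have hc0 : c i0 = 0 := by
          rcases mul_eq_zero.1 h0 with h | h
          · exact h
          · exact absurd h hp.ne'
        obtain ⟨i, hi, hci⟩ := hc
        by_cases h : i = i0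
        · subst h; exact hci hc0
        · exact hci (hall i (Finset.mem_erase.2 ⟨h, hi⟩))
      rw [hZe]; simp
    · push Not at hall
      obtain ⟨i1, hi1, hci1⟩ := hall
      set I : Set ℝ := {x | ∀ i ∈ s, 0 < x + β i} with hIdef
      have hIord : I.OrdConnected := by
        refine ⟨fun x hx y _ z hz i hi => ?_⟩
        have := hx i hi
        have := hz.1
        linarith
      set g : ℝ → ℝ := fun x => ∑ i ∈ s, c i * ((x + β i) ^ α * (x + β i0) ^ (-α)) with hg
      set g' : ℝ → ℝ := fun x => ∑ i ∈ s, c i * (α * (β i0 - β i) * (x + β i) ^ (α - 1)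
        * (x + β i0) ^ (-α - 1)) with hg'
      have hderiv : ∀ x ∈ I, HasDerivAt g (g' x) x := by
        intro x hx
        rw [hg, hg']
        apply HasDerivAt.fun_sum
        intro i hi
        have h1 : 0 < x + β i := hx i hi
        have h2 : 0 < x + β i0 := hx i0 hi0
        have e1 : HasDerivAt (fun x : ℝ => (x + β i) ^ α) (α * (x + β i) ^ (α - 1)) x := by
          have := ((hasDerivAt_id x).add_const (β i)).rpow_const (p := α) (Or.inl h1.ne')
          simpa [mul_comm] using this
        have e2 : HasDerivAt (fun x : ℝ => (x + β i0) ^ (-α)) (-α * (x + β i0) ^ (-α - 1)) x := by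
          have := ((hasDerivAt_id x).add_const (β i0)).rpow_const (p := -α) (Or.inl h2.ne')
          simpa [mul_comm] using this
        have e3 := (e1.mul e2).const_mul (c i)
        refine e3.congr_deriv ?_
        have r1 : (x + β i) ^ α = (x + β i) ^ (α - 1) * (x + β i) := by
          rw [Real.rpow_sub_one h1.ne']; field_simp
        have r2 : (x + β i0) ^ (-α) = (x + β i0) ^ (-α - 1) * (x + β i0) := by
          rw [Real.rpow_sub_one h2.ne']; field_simp
        rw [r1, r2]; ring
      have hgz : ∀ z ∈ Z, g z = 0 := by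
        intro z hz
        have : g z = (∑ i ∈ s, c i * (z + β i) ^ α) * (z + β i0) ^ (-α) := by
          rw [hg, Finset.sum_mul]
          exact Finset.sum_congr rfl (fun i _ => by ring)
        rw [this, hZ z hz, zero_mul]
      obtain ⟨Z', h1, h2, _, h4⟩ := rolle_finset hIord hderiv Z (fun z hz i hi => hpos z hz i hi) hgz
      have hα0 : α ≠ 0 := by simpa using hα 0
      have hlt : Z'.card < m := by
        refine ih (s.erase i0) (by rw [Finset.card_erase_of_mem hi0, hs]; rfl) β
          (hβ.mono (by simpa using Finset.erase_subset i0 s)) (fun i => c i * (β i0 - β i)) (α - 1) ?_ ?_ Z' ?_ ?_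
        · intro j hj
          apply hα (j + 1)
          push_cast
          linarith
        · refine ⟨i1, hi1, mul_ne_zero hci1 (sub_ne_zero.2 ?_)⟩
          intro h
          have := hβ (by simpa using hi0) (by simpa using Finset.mem_of_mem_erase hi1) h
          exact (Finset.mem_erase.1 hi1).1 this.symm
        · intro z hz i hi
          exact h1 z hz i (Finset.mem_of_mem_erase hi)
        · intro z hz
          have h0 := h2 z hz
          have hp : 0 < (z + β i0) ^ (-α - 1) := Real.rpow_pos_of_pos (h1 z hz i0 hi0) _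
          rw [hg'] at h0
          have : (∑ i ∈ s, c i * (α * (β i0 - β i) * (z + β i) ^ (α - 1) * (z + β i0) ^ (-α - 1)))
              = (α * (z + β i0) ^ (-α - 1)) * ∑ i ∈ s.erase i0, c i * (β i0 - β i) * (z + β i) ^ (α - 1) := by
            rw [← Finset.add_sum_erase s _ hi0, Finset.mul_sum]
            simp only [sub_self, mul_zero, zero_mul, zero_add]
            exact Finset.sum_congr rfl (fun i _ => by ring)
          simp only [this] at h0
          rcases mul_eq_zero.1 h0 with h | h
          · exact absurd h (mul_ne_zero hα0 hp.ne')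
          · exact h
      omega

/-- Pigeonhole: small integer combinations. -/
theorem pigeon {ι : Type*} [Fintype ι] [DecidableEq ι] (k L K : ℕ) (w : Fin k → ι → ℝ)
    (hw : ∀ j i, 0 ≤ w j i) (hK : ∀ j, (L : ℝ) * ∑ i, w j i < K)
    (hcard : K ^ k < (L + 1) ^ (Fintype.card ι)) :
    ∃ μ : ι → ℤ, μ ≠ 0 ∧ (∀ i, |μ i| ≤ L) ∧ ∀ j, |∑ i, (μ i : ℝ) * w j i| < 1 := by
  classical
  have hfl : ∀ (l : ι → Fin (L + 1)) (j : Fin k), ⌊∑ i, ((l i : ℕ) : ℝ) * w j i⌋₊ < K := by
    intro l j
    have h0 : (0 : ℝ) ≤ ∑ i, ((l i : ℕ) : ℝ) * w j i :=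
      Finset.sum_nonneg (fun i _ => mul_nonneg (by positivity) (hw j i))
    rw [Nat.floor_lt h0]
    refine lt_of_le_of_lt ?_ (hK j)
    rw [Finset.mul_sum]
    refine Finset.sum_le_sum (fun i _ => mul_le_mul_of_nonneg_right ?_ (hw j i))
    exact_mod_cast Nat.lt_succ_iff.1 (l i).2
  let f : (ι → Fin (L + 1)) → (Fin k → Fin K) := fun l j => ⟨_, hfl l j⟩
  have hc : Fintype.card (Fin k → Fin K) < Fintype.card (ι → Fin (L + 1)) := by
    simpa using hcard
  obtain ⟨l1, l2, hne, heq⟩ := Fintype.exists_ne_map_eq_of_card_lt f hc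
  refine ⟨fun i => ((l1 i : ℕ) : ℤ) - ((l2 i : ℕ) : ℤ), ?_, ?_, ?_⟩
  · intro h
    apply hne
    funext i
    have := congrFun h i
    simp only [Pi.zero_apply, sub_eq_zero] at this
    exact Fin.ext (by exact_mod_cast this)
  · intro i
    have h1 := Nat.lt_succ_iff.1 (l1 i).2
    have h2 := Nat.lt_succ_iff.1 (l2 i).2
    show |((l1 i : ℕ) : ℤ) - ((l2 i : ℕ) : ℤ)| ≤ L
    rw [abs_le]
    constructor <;> omega
  · intro j
    have hj : ⌊∑ i, ((l1 i : ℕ) : ℝ) * w j i⌋₊ = ⌊∑ i, ((l2 i : ℕ) : ℝ) * w j i⌋₊ := by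
      have := congrFun heq j
      simpa [f] using congrArg Fin.val this
    have h01 : (0 : ℝ) ≤ ∑ i, ((l1 i : ℕ) : ℝ) * w j i :=
      Finset.sum_nonneg (fun i _ => mul_nonneg (by positivity) (hw j i))
    have h02 : (0 : ℝ) ≤ ∑ i, ((l2 i : ℕ) : ℝ) * w j i :=
      Finset.sum_nonneg (fun i _ => mul_nonneg (by positivity) (hw j i))
    have a1 := Nat.floor_le h01
    have a2 := Nat.lt_floor_add_one (∑ i, ((l1 i : ℕ) : ℝ) * w j i)
    have b1 := Nat.floor_le h02
    have b2 := Nat.lt_floor_add_one (∑ i, ((l2 i : ℕ) : ℝ) * w j i)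
    rw [hj] at a1 a2
    have : ∑ i, (((((l1 i : ℕ) : ℤ) - ((l2 i : ℕ) : ℤ) : ℤ)) : ℝ) * w j i
        = ∑ i, ((l1 i : ℕ) : ℝ) * w j i - ∑ i, ((l2 i : ℕ) : ℝ) * w j i := by
      rw [← Finset.sum_sub_distrib]
      refine Finset.sum_congr rfl (fun i _ => ?_)
      push_cast
      ring
    rw [this, abs_lt]
    constructor <;> linarith

end Pool.Agent.Helper15
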