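import Pool.Agent.Helper15.Cheb
import Pool.Agent.Helper15.Binom

set_option autoImplicit false

namespace Pool.Agent.Helper15

open Finset

/-- Core pigeonhole plus zero counting argument. -/
theorem core (n : ℤ) (hn : n ≠ 0) (k H : ℕ) (hk : 1 ≤ k) (P : Finset ℤ) (hP : 8 * k + 1 ≤ P.card)
    (hPH : P.card ≤ H) (hpos : ∀ a ∈ P, 0 < a)
    (hsq : ∀ a ∈ P, ∀ x ∈ P, a ≠ x → IsSquare (a * x + n))
    (hax : ∀ a ∈ P, ∀ x ∈ P, a ≠ x → 0 < a * x + n)
    (g h : ℕ → ℤ → ℝ) (Hb : ℕ → ℝ)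
    (hg : ∀ j < k, ∀ a ∈ P, 0 ≤ g j a)
    (hHb : ∀ j < k, ∀ x ∈ P, |h j x| ≤ Hb j)
    (hgH : ∀ j < k, ∀ a ∈ P, g j a * Hb j ≤ H)
    (happ : ∀ a ∈ P, ∀ x ∈ P, a ≠ x →
      |Real.sqrt ((a : ℝ) * x + n) - ∑ j ∈ range k, g j a * h j x| ≤ 1 / (H : ℝ) ^ 2) : False := by
  classical
  have hkH : 8 * k + 1 ≤ H := le_trans hP hPH
  have hkHr : 8 * (k : ℝ) + 1 ≤ H := by exact_mod_cast hkH
  have hk1 : (1 : ℝ) ≤ k := by exact_mod_cast hk
  have hHpos : (0 : ℝ) < H := by linarith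
  obtain ⟨A, hAP, hA⟩ := Finset.exists_subset_card_eq (show 4 * k ≤ P.card by omega)
  have hXcard : 4 * k + 1 ≤ (P \ A).card := by
    rw [Finset.card_sdiff_of_subset hAP]; omega
  have hPne : P.Nonempty := by rw [← Finset.card_pos]; omega
  obtain ⟨p0, hp0⟩ := hPne
  have hHb0 : ∀ j < k, 0 ≤ Hb j := fun j hj => le_trans (abs_nonneg _) (hHb j hj p0 hp0)
  let w : Fin k → A → ℝ := fun j i => 2 * k * (Hb j * g j i)
  have hw : ∀ j i, 0 ≤ w j i := fun j i =>
    mul_nonneg (by positivity) (mul_nonneg (hHb0 j j.2) (hg j j.2 _ (hAP i.2)))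
  have hcardA : Fintype.card A = 4 * k := by simpa using hA
  have hK : ∀ j, ((H : ℕ) : ℝ) * ∑ i, w j i < ((H ^ 4 : ℕ) : ℝ) := by
    intro j
    have h1 : ∑ i, w j i ≤ ∑ _i : A, 2 * (k : ℝ) * H := by
      refine Finset.sum_le_sum (fun i _ => ?_)
      refine mul_le_mul_of_nonneg_left ?_ (by positivity)
      rw [mul_comm]
      exact hgH j j.2 _ (hAP i.2)
    have h2 : ∑ _i : A, 2 * (k : ℝ) * H = 8 * (k : ℝ) ^ 2 * H := by
      rw [Finset.sum_const, Finset.card_univ, hcardA, nsmul_eq_mul]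
      push_cast; ring
    have h3 : 8 * (k : ℝ) ^ 2 < (H : ℝ) ^ 2 := by nlinarith
    push_cast
    calc (H : ℝ) * ∑ i, w j i ≤ H * (8 * (k : ℝ) ^ 2 * H) := by
          rw [← h2]; exact mul_le_mul_of_nonneg_left h1 hHpos.le
      _ = (8 * (k : ℝ) ^ 2) * (H : ℝ) ^ 2 := by ring
      _ < (H : ℝ) ^ 2 * (H : ℝ) ^ 2 := mul_lt_mul_of_pos_right h3 (by positivity)
      _ = (H : ℝ) ^ 4 := by ring
  obtain ⟨μ, hμ0, hμL, hμw⟩ := pigeon k H (H ^ 4) w hw hK (by
    rw [hcardA, ← pow_mul]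
    exact Nat.pow_lt_pow_left (Nat.lt_succ_self H) (by omega))
  -- the relation
  have hrel : ∀ x ∈ P \ A, ∑ i : A, (μ i : ℝ) * Real.sqrt (((i : ℤ) : ℝ) * x + n) = 0 := by
    intro x hx
    have hxP : x ∈ P := (Finset.mem_sdiff.1 hx).1
    have hxA : x ∉ A := (Finset.mem_sdiff.1 hx).2
    have hne : ∀ i : A, (i : ℤ) ≠ x := fun i h => hxA (h ▸ i.2)
    have hu : ∀ i : A, ∃ u : ℤ, (u : ℝ) = Real.sqrt (((i : ℤ) : ℝ) * x + n) := by
      intro i
      obtain ⟨r, hr⟩ := hsq i (hAP i.2) x hxP (hne i)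
      refine ⟨|r|, ?_⟩
      have : (((i : ℤ) : ℝ) * x + n) = (r : ℝ) * r := by exact_mod_cast hr
      rw [this, Real.sqrt_mul_self_eq_abs, Int.cast_abs]
    choose u hu using hu
    have hint : ∑ i : A, (μ i : ℝ) * Real.sqrt (((i : ℤ) : ℝ) * x + n)
        = ((∑ i : A, μ i * u i : ℤ) : ℝ) := by
      push_cast
      exact Finset.sum_congr rfl (fun i _ => by rw [hu])
    have hsmall : |∑ i : A, (μ i : ℝ) * Real.sqrt (((i : ℤ) : ℝ) * x + n)| < 1 := by
      have hsplit : ∑ i : A, (μ i : ℝ) * Real.sqrt (((i : ℤ) : ℝ) * x + n)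
          = ∑ i : A, (μ i : ℝ) * (Real.sqrt (((i : ℤ) : ℝ) * x + n) - ∑ j ∈ range k, g j i * h j x)
            + ∑ j ∈ range k, h j x * ∑ i : A, (μ i : ℝ) * g j i := by
        have : ∑ j ∈ range k, h j x * ∑ i : A, (μ i : ℝ) * g j i
            = ∑ i : A, (μ i : ℝ) * ∑ j ∈ range k, g j i * h j x := by
          simp only [Finset.mul_sum]
          rw [Finset.sum_comm]
          exact Finset.sum_congr rfl (fun i _ => Finset.sum_congr rfl (fun j _ => by ring))
        rw [this, ← Finset.sum_add_distrib]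
        exact Finset.sum_congr rfl (fun i _ => by ring)
      have hb1 : |∑ i : A, (μ i : ℝ) * (Real.sqrt (((i : ℤ) : ℝ) * x + n) - ∑ j ∈ range k, g j i * h j x)|
          < 1 / 2 := by
        refine lt_of_le_of_lt (Finset.abs_sum_le_sum_abs _ _) ?_
        have : ∀ i : A, |(μ i : ℝ) * (Real.sqrt (((i : ℤ) : ℝ) * x + n) - ∑ j ∈ range k, g j i * h j x)|
            ≤ (H : ℝ) * (1 / (H : ℝ) ^ 2) := by
          intro i
          rw [abs_mul]
          refine mul_le_mul ?_ (happ i (hAP i.2) x hxP (hne i)) (abs_nonneg _) hHpos.le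
          exact_mod_cast hμL i
        refine lt_of_le_of_lt (Finset.sum_le_sum (fun i _ => this i)) ?_
        rw [Finset.sum_const, Finset.card_univ, hcardA, nsmul_eq_mul]
        push_cast
        have : 4 * (k : ℝ) * ((H : ℝ) * (1 / (H : ℝ) ^ 2)) = 4 * k / H := by field_simp
        rw [this, div_lt_iff₀ hHpos]
        linarith
      have hb2 : |∑ j ∈ range k, h j x * ∑ i : A, (μ i : ℝ) * g j i| < 1 / 2 := by
        refine lt_of_le_of_lt (Finset.abs_sum_le_sum_abs _ _) ?_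
        have hterm : ∀ j ∈ range k, |h j x * ∑ i : A, (μ i : ℝ) * g j i| < 1 / (2 * k) := by
          intro j hj
          have hjk : j < k := Finset.mem_range.1 hj
          have hwj := hμw ⟨j, hjk⟩
          have e : ∑ i : A, (μ i : ℝ) * w ⟨j, hjk⟩ i = 2 * k * (Hb j * ∑ i : A, (μ i : ℝ) * g j i) := by
            simp only [w, Finset.mul_sum]
            exact Finset.sum_congr rfl (fun i _ => by ring)
          rw [e, abs_mul, abs_mul (Hb j), abs_of_nonneg (hHb0 j hjk),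
            abs_of_pos (show (0 : ℝ) < 2 * k by positivity)] at hwj
          rw [abs_mul]
          refine lt_of_le_of_lt (mul_le_mul_of_nonneg_right (hHb j hjk x hxP) (abs_nonneg _)) ?_
          rw [lt_div_iff₀ (by positivity)]
          linarith
        have hne : (range k).Nonempty := ⟨0, Finset.mem_range.2 (by omega)⟩
        refine lt_of_lt_of_le (Finset.sum_lt_sum_of_nonempty hne hterm) ?_
        rw [Finset.sum_const, Finset.card_range, nsmul_eq_mul]
        apply le_of_eq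
        field_simp
      rw [hsplit]
      exact lt_of_le_of_lt (abs_add_le _ _) (by linarith)
    rw [hint] at hsmall ⊢
    have : |∑ i : A, μ i * u i| < 1 := by exact_mod_cast hsmall
    rw [Int.abs_lt_one_iff.1 this]
    simp
  -- zero counting
  have hβ : Set.InjOn (fun i : A => (n : ℝ) / ((i : ℤ) : ℝ)) (Finset.univ : Finset A) := by
    intro i _ i' _ hii
    have h1 : (0 : ℝ) < ((i : ℤ) : ℝ) := by exact_mod_cast hpos _ (hAP i.2)
    have h2 : (0 : ℝ) < ((i' : ℤ) : ℝ) := by exact_mod_cast hpos _ (hAP i'.2)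
    have hn' : (n : ℝ) ≠ 0 := by exact_mod_cast hn
    simp only at hii
    rw [div_eq_div_iff h1.ne' h2.ne'] at hii
    have := mul_left_cancel₀ hn' hii
    exact Subtype.ext (by exact_mod_cast this.symm)
  obtain ⟨i0, hi0⟩ : ∃ i, μ i ≠ 0 := by
    by_contra hcon
    push Not at hcon
    exact hμ0 (funext hcon)
  have hch := cheb (4 * k) (Finset.univ : Finset A) (by rw [Finset.card_univ, hcardA])
    (fun i : A => (n : ℝ) / ((i : ℤ) : ℝ)) hβ (fun i => (μ i : ℝ) * Real.sqrt ((i : ℤ) : ℝ)) (1 / 2)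
    (by
      intro j hj
      have h2 : (1 : ℝ) = 2 * j := by linarith
      have h3 : (1 : ℕ) = 2 * j := by exact_mod_cast h2
      omega)
    ⟨i0, Finset.mem_univ _, mul_ne_zero (by exact_mod_cast hi0)
      (Real.sqrt_ne_zero'.2 (by exact_mod_cast hpos _ (hAP i0.2)))⟩
    ((P \ A).image (fun x : ℤ => (x : ℝ)))
    (by
      intro z hz i _
      obtain ⟨x, hx, rfl⟩ := Finset.mem_image.1 hz
      have hxP : x ∈ P := (Finset.mem_sdiff.1 hx).1
      have hxA : x ∉ A := (Finset.mem_sdiff.1 hx).2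
      have hi : (0 : ℝ) < ((i : ℤ) : ℝ) := by exact_mod_cast hpos _ (hAP i.2)
      have h1 : (0 : ℝ) < ((i : ℤ) : ℝ) * x + n := by
        exact_mod_cast hax i (hAP i.2) x hxP (fun h => hxA (h ▸ i.2))
      have : (x : ℝ) + n / ((i : ℤ) : ℝ) = (((i : ℤ) : ℝ) * x + n) / ((i : ℤ) : ℝ) := by
        field_simp
      simp only [this]
      positivity)
    (by
      intro z hz
      obtain ⟨x, hx, rfl⟩ := Finset.mem_image.1 hz
      rw [← hrel x hx]
      refine Finset.sum_congr rfl (fun i _ => ?_)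
      have hi : (0 : ℝ) < ((i : ℤ) : ℝ) := by exact_mod_cast hpos _ (hAP i.2)
      rw [← Real.sqrt_eq_rpow, mul_assoc, ← Real.sqrt_mul hi.le]
      congr 2
      field_simp)
  rw [Finset.card_image_of_injective _ Int.cast_injective] at hch
  omega

end Pool.Agent.Helper15
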