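import Pool.Agent.Helper15.Integral

set_option autoImplicit false

namespace Pool.Agent.Helper15.Pade

open Finset
open scoped Polynomial

/-- numeric part, first term -/
theorem num1 (k : ℕ) (M Y D mult q F X : ℝ) (r : ℕ) (hr : r ≤ 2) (hM : 1 ≤ M) (hYM : 512 * M ^ 9 ≤ Y)
    (hX : X = 1 / Y ^ 4) (hD : 0 < D)
    (hmult : mult ≤ (Y ^ 4) ^ k * 4 ^ k * (M ^ 3) ^ (2 * k + 1))
    (hq0 : 0 ≤ q) (hq : q ≤ 2 * Y ^ 4 * D)
    (hF0 : 0 ≤ F) (hF : F ≤ 24 * 16 ^ k * (M + 1) ^ (3 * k + 2) * X ^ (3 * k + 2 - r)) :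
    mult * (q * F) * Y ^ (7 * k) ≤ Y ^ 5 * D := by
  have hM0 : 0 < M := by linarith
  have hM9 : 1 ≤ M ^ 9 := one_le_pow₀ hM
  have hY1 : 1 ≤ Y := by nlinarith
  have hY0 : 0 < Y := by linarith
  have hX0 : 0 < X := by rw [hX]; positivity
  have hX1 : X ≤ 1 := by
    rw [hX, div_le_one (by positivity)]
    exact one_le_pow₀ hY1
  have h1 : X ^ (3 * k + 2 - r) ≤ X ^ (3 * k) := pow_le_pow_of_le_one hX0.le hX1 (by omega)
  have h2 : X ^ (3 * k) * Y ^ (12 * k) = 1 := by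
    rw [hX, one_div, inv_pow, ← pow_mul]
    have : 4 * (3 * k) = 12 * k := by ring
    rw [this]
    field_simp
  have h3 : (M + 1) ^ (3 * k + 2) ≤ (2 * M) ^ (3 * k + 2) :=
    pow_le_pow_left₀ (by linarith) (by linarith) _
  have hF' : F ≤ 24 * 16 ^ k * (2 * M) ^ (3 * k + 2) * X ^ (3 * k) := by
    refine le_trans hF ?_
    refine mul_le_mul (mul_le_mul_of_nonneg_left h3 (by positivity)) h1 (by positivity)
      (by positivity)
  have h5 : (512 * M ^ 9) ^ k ≤ Y ^ k := pow_le_pow_left₀ (by positivity) hYM k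
  have h6 : 192 * M ^ 5 ≤ Y := by
    have : M ^ 5 ≤ M ^ 9 := pow_le_pow_right₀ hM (by norm_num)
    nlinarith
  have hYpow : Y ^ (7 * k) * (Y ^ 4) ^ k * Y ^ k = Y ^ (12 * k) := by
    rw [← pow_mul, ← pow_add, ← pow_add]; ring_nf
  calc mult * (q * F) * Y ^ (7 * k)
      ≤ ((Y ^ 4) ^ k * 4 ^ k * (M ^ 3) ^ (2 * k + 1)) *
          ((2 * Y ^ 4 * D) * (24 * 16 ^ k * (2 * M) ^ (3 * k + 2) * X ^ (3 * k))) * Y ^ (7 * k) := by
        refine mul_le_mul_of_nonneg_right ?_ (by positivity)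
        refine mul_le_mul hmult (mul_le_mul hq hF' hF0 (by positivity)) (mul_nonneg hq0 hF0)
          (by positivity)
    _ = ((512 * M ^ 9) ^ k) * (192 * M ^ 5) * (Y ^ 4 * D) *
          (X ^ (3 * k) * ((Y ^ 4) ^ k * Y ^ (7 * k))) := by
        have e1 : (M ^ 3) ^ (2 * k + 1) = (M ^ 6) ^ k * M ^ 3 := by
          rw [← pow_mul, ← pow_mul, ← pow_add]; ring_nf
        have e2 : (2 * M) ^ (3 * k + 2) = (8 * M ^ 3) ^ k * (4 * M ^ 2) := by
          have : (8 * M ^ 3) = (2 * M) ^ 3 := by ring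
          rw [this, ← pow_mul, pow_add]; ring
        have e3 : (512 * M ^ 9 : ℝ) = 4 * (M ^ 6) * (16 * (8 * M ^ 3)) := by ring
        rw [e1, e2, e3, mul_pow, mul_pow, mul_pow 16]
        ring
    _ ≤ (Y ^ k) * Y * (Y ^ 4 * D) * (X ^ (3 * k) * ((Y ^ 4) ^ k * Y ^ (7 * k))) := by
        refine mul_le_mul_of_nonneg_right ?_ (by positivity)
        refine mul_le_mul_of_nonneg_right ?_ (by positivity)
        exact mul_le_mul h5 h6 (by positivity) (by positivity)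
    _ = Y ^ 5 * D * (X ^ (3 * k) * (Y ^ (7 * k) * (Y ^ 4) ^ k * Y ^ k)) := by ring
    _ = Y ^ 5 * D * (X ^ (3 * k) * Y ^ (12 * k)) := by rw [hYpow]
    _ = Y ^ 5 * D := by rw [h2, mul_one]

/-- numeric part, second term -/
theorem num2 (k : ℕ) (M Y D mult E F sc : ℝ) (hM : 1 ≤ M) (hYM : 512 * M ^ 9 ≤ Y)
    (hD : 0 < D)
    (hmult : mult ≤ (Y ^ 4) ^ k * 4 ^ k * (M ^ 3) ^ (2 * k + 1))
    (hsc : sc ≤ Y ^ 4)
    (hE0 : 0 ≤ E) (hE : E * D ≤ 2 * M * sc)
    (hF0 : 0 ≤ F) (hF : F ≤ 8 * 32 ^ k * (M + 1) ^ 2) :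
    mult * (2 * E * F) * D ≤ Y ^ (5 * k + 5) := by
  have hM0 : 0 < M := by linarith
  have hM9 : 1 ≤ M ^ 9 := one_le_pow₀ hM
  have hY1 : 1 ≤ Y := by nlinarith
  have hY0 : 0 < Y := by linarith
  have hF' : F ≤ 8 * 32 ^ k * (2 * M) ^ 2 := by
    refine le_trans hF ?_
    exact mul_le_mul_of_nonneg_left (pow_le_pow_left₀ (by linarith) (by linarith) _) (by positivity)
  have h128 : 128 * M ^ 6 ≤ Y := by
    have : M ^ 6 ≤ M ^ 9 := pow_le_pow_right₀ hM (by norm_num)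
    nlinarith [pow_pos hM0 6]
  have h5 : (128 * M ^ 6) ^ k ≤ Y ^ k := pow_le_pow_left₀ (by positivity) h128 k
  calc mult * (2 * E * F) * D = mult * (2 * (E * D) * F) := by ring
    _ ≤ ((Y ^ 4) ^ k * 4 ^ k * (M ^ 3) ^ (2 * k + 1)) *
          (2 * (2 * M * Y ^ 4) * (8 * 32 ^ k * (2 * M) ^ 2)) := by
        refine mul_le_mul hmult ?_ (by positivity) (by positivity)
        refine mul_le_mul ?_ hF' hF0 (by positivity)
        refine mul_le_mul_of_nonneg_left (le_trans hE ?_) (by norm_num)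
        exact mul_le_mul_of_nonneg_left hsc (by positivity)
    _ = ((128 * M ^ 6) ^ k) * (128 * M ^ 6) * (Y ^ 4 * (Y ^ 4) ^ k) := by
        have e1 : (M ^ 3) ^ (2 * k + 1) = (M ^ 6) ^ k * M ^ 3 := by
          rw [← pow_mul, ← pow_mul, ← pow_add]; ring_nf
        have e3 : (128 * M ^ 6 : ℝ) = 4 * (M ^ 6) * 32 := by ring
        rw [e1, e3, mul_pow, mul_pow]
        ring
    _ ≤ (Y ^ k) * Y * (Y ^ 4 * (Y ^ 4) ^ k) := by
        refine mul_le_mul_of_nonneg_right ?_ (by positivity)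
        exact mul_le_mul h5 h128 (by positivity) (by positivity)
    _ = Y ^ (5 * k + 5) := by
        rw [← pow_mul, ← pow_add]
        rw [show Y ^ k * Y = Y ^ (k + 1) from (pow_succ Y k).symm, ← pow_add]
        ring_nf

theorem erase0 : (univ.erase (0 : Fin 3)) = {1, 2} := by decide
theorem erase1 : (univ.erase (1 : Fin 3)) = {0, 2} := by decide
theorem erase2 : (univ.erase (2 : Fin 3)) = {0, 1} := by decide

/-- Difference of two positive reals through their squares. -/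
theorem abs_sub_le_of_sq (P R S : ℝ) (hP : 0 < P) (hR : 0 ≤ R) (h : |P ^ 2 - R ^ 2| ≤ S * P) :
    |P - R| ≤ S := by
  have h0 : P ^ 2 - R ^ 2 = (P - R) * (P + R) := by ring
  rw [h0, abs_mul, abs_of_pos (show 0 < P + R by linarith)] at h
  have h2 : |P - R| * P ≤ |P - R| * (P + R) := mul_le_mul_of_nonneg_left (by linarith) (abs_nonneg _)
  exact le_of_mul_le_mul_right (le_trans h2 h) hP

/-- Real form of the approximation supplied by `ac+n=s²`, `ad+n=x²`, `cd+n=z²`: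
`E = b (s x - a z θ)` with `θ = √(1 + n b / (a b c))`. -/
theorem approx (n a b c d s x z θ : ℝ) (ha : 0 < a) (hb : 0 < b) (hac : a < c) (hcd : c < d)
    (hs : a * c + n = s ^ 2) (hx : a * d + n = x ^ 2) (hz : c * d + n = z ^ 2)
    (hs0 : 0 ≤ s) (hx0 : 0 ≤ x) (hz0 : 0 ≤ z) (hnac : 2 * |n| ≤ a * c)
    (hθ : θ = Real.sqrt (1 + n * b * (1 / (a * b * c)))) :
    |b * s * x - a * b * z * θ| * Real.sqrt d ≤ 2 * (|n| * b) * Real.sqrt c := by
  have hc : 0 < c := by linarith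
  have hd : 0 < d := by linarith
  have hn1 := neg_abs_le n
  have hn2 := le_abs_self n
  have hacad : a * c < a * d := mul_lt_mul_of_pos_left hcd ha
  have hacp : 0 < a * c := mul_pos ha hc
  have hs2 : 0 < s ^ 2 := by rw [← hs]; linarith
  have hx2 : 0 < x ^ 2 := by rw [← hx]; linarith
  have hsp : 0 < s := lt_of_le_of_ne hs0 (fun h => by rw [← h] at hs2; norm_num at hs2)
  have hxp : 0 < x := lt_of_le_of_ne hx0 (fun h => by rw [← h] at hx2; norm_num at hx2)
  have hθ0 : 0 ≤ θ := by rw [hθ]; exact Real.sqrt_nonneg _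
  have h1 : 1 + n * b * (1 / (a * b * c)) = s ^ 2 / (a * c) := by
    rw [← hs]; field_simp
  have hθ2 : θ ^ 2 = s ^ 2 / (a * c) := by
    rw [hθ, h1, Real.sq_sqrt (by positivity)]
  have hR0 : 0 ≤ a * z * θ := by positivity
  have hP : 0 < s * x := mul_pos hsp hxp
  have hdiff : (s * x) ^ 2 - (a * z * θ) ^ 2 = s ^ 2 * (n * (c - a) / c) := by
    rw [mul_pow, mul_pow, mul_pow, hθ2, ← hx, ← hz]
    field_simp
    ring
  have hca : (c - a) / c ≤ 1 := by
    rw [div_le_one hc]; linarith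
  have hca0 : 0 ≤ (c - a) / c := div_nonneg (by linarith) hc.le
  have hkey : |s * x - a * z * θ| ≤ s * |n| / x := by
    refine abs_sub_le_of_sq _ _ _ hP hR0 ?_
    rw [hdiff, abs_mul, abs_of_pos hs2, mul_div_assoc, abs_mul, abs_of_nonneg hca0]
    have : s * |n| / x * (s * x) = s ^ 2 * |n| := by field_simp
    rw [this]
    refine mul_le_mul_of_nonneg_left ?_ hs2.le
    exact mul_le_of_le_one_right (abs_nonneg _) hca
  -- s √d ≤ 2 x √c
  have hsx : s * Real.sqrt d ≤ 2 * x * Real.sqrt c := by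
    refine le_of_sq_le_sq ?_ (by positivity)
    rw [mul_pow, mul_pow, mul_pow, Real.sq_sqrt hd.le, Real.sq_sqrt hc.le, ← hs, ← hx]
    have e1 : (a * c + n) * d ≤ 2 * (a * c) * d := mul_le_mul_of_nonneg_right (by linarith) hd.le
    have e2 : (a * d) * c ≤ 2 * (a * d + n) * c := mul_le_mul_of_nonneg_right (by linarith) hc.le
    nlinarith
  have hE : b * s * x - a * b * z * θ = b * (s * x - a * z * θ) := by ring
  rw [hE, abs_mul, abs_of_pos hb]
  calc b * |s * x - a * z * θ| * Real.sqrt d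
      ≤ b * (s * |n| / x) * Real.sqrt d := by
        refine mul_le_mul_of_nonneg_right ?_ (Real.sqrt_nonneg _)
        exact mul_le_mul_of_nonneg_left hkey hb.le
    _ = (b * |n| / x) * (s * Real.sqrt d) := by ring
    _ ≤ (b * |n| / x) * (2 * x * Real.sqrt c) := by
        refine mul_le_mul_of_nonneg_left hsx (by positivity)
    _ = 2 * (|n| * b) * Real.sqrt c := by field_simp

end Pool.Agent.Helper15.Pade
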