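import Pool.Agent.Helper15.Lower

set_option autoImplicit false

namespace Pool.Agent.Helper15.Pade

open Finset
open scoped Polynomial

theorem aux_cd (A a c d : ℝ) (h : 2 * A ≤ a * c) (hc : 0 < c) (had : a ≤ d) :
    2 * A ≤ c * d := by
  have : a * c ≤ d * c := mul_le_mul_of_nonneg_right had hc.le
  linarith

theorem aux_q (a b c d n z q D Y : ℝ) (ha : 0 < a) (hb : 0 < b) (hc : 1 ≤ c) (hd : 0 < d)
    (hq : q = a * b * z) (hz : c * d + n = z ^ 2) (hn : n ≤ c * d) (hY : 0 < Y)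
    (hY4 : Y ^ 4 = a * b * c) (hD : 0 ≤ D) (hD2 : D ^ 2 = d) : q ≤ 2 * Y ^ 4 * D := by
  refine le_of_sq_le_sq ?_ (by positivity)
  have e1 : q ^ 2 = (a * b) ^ 2 * (c * d + n) := by rw [hq, hz]; ring
  have e2 : (2 * Y ^ 4 * D) ^ 2 = 4 * (a * b * c) ^ 2 * d := by
    rw [hY4, mul_pow, mul_pow, hD2]; ring
  rw [e1, e2]
  have h1 : c * d + n ≤ 2 * (c * d) := by linarith
  have h2 : (a * b) ^ 2 * (c * d + n) ≤ (a * b) ^ 2 * (2 * (c * d)) :=
    mul_le_mul_of_nonneg_left h1 (by positivity)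
  have h3 : (a * b) ^ 2 * (2 * (c * d)) ≤ (a * b) ^ 2 * (4 * (c * c * d)) := by
    refine mul_le_mul_of_nonneg_left ?_ (by positivity)
    have h5 : c * d * 1 ≤ c * d * c := mul_le_mul_of_nonneg_left hc (by positivity)
    have h6 : c * d * c = c * c * d := by ring
    have h7 : 0 ≤ c * c * d := by positivity
    linarith
  have h4 : (a * b) ^ 2 * (4 * (c * c * d)) = 4 * (a * b * c) ^ 2 * d := by ring
  linarith

theorem aux_sc (a b c sc Y : ℝ) (ha : 1 ≤ a) (hb : 1 ≤ b) (hc : 1 ≤ c) (hY : 0 < Y)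
    (hY4 : Y ^ 4 = a * b * c) (hsc2 : sc ^ 2 = c) : sc ≤ Y ^ 4 := by
  refine le_of_sq_le_sq ?_ (by positivity)
  rw [hsc2, hY4]
  have h1 : 1 ≤ a * b := one_le_mul_of_one_le_of_one_le ha hb
  have h2 : 1 * c ≤ a * b * c := mul_le_mul_of_nonneg_right h1 (by linarith)
  have h3 : 1 ≤ a * b * c := by linarith
  have h4 : (a * b * c) * 1 ≤ (a * b * c) * (a * b * c) :=
    mul_le_mul_of_nonneg_left h3 (by linarith)
  have h5 : (a * b * c) ^ 2 = (a * b * c) * (a * b * c) := by ring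
  linarith

theorem aux_size (A a b c M Y : ℝ) (hA1 : 1 ≤ A) (hb : 2 ≤ b)
    (hM : M = A * b) (hY1 : 1 ≤ Y) (hY512M : 512 * M ≤ Y) (hY4 : Y ^ 4 = a * b * c) :
    2 * A ≤ a * c := by
  have hM0 : 0 < M := by rw [hM]; positivity
  have e1 : 512 * M * (512 * M) ≤ Y ^ 4 := by
    calc 512 * M * (512 * M) ≤ Y * Y := mul_le_mul hY512M hY512M (by positivity) (by positivity)
      _ = Y ^ 2 := by ring
      _ ≤ Y ^ 4 := pow_le_pow_right₀ hY1 (by norm_num)
  rw [hY4, hM] at e1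
  have e2 : 512 * A * (512 * A) * (b * b) ≤ a * c * b := by nlinarith
  have e3 : (2 * A) * b ≤ (a * c) * b := by
    have : (2 * A) * b ≤ 512 * A * (512 * A) * (b * b) := by
      have h1 : 2 * A ≤ 512 * A * (512 * A) := by nlinarith
      have h2 : (b : ℝ) ≤ b * b := by nlinarith
      exact mul_le_mul h1 h2 (by linarith) (by positivity)
    linarith
  exact le_of_mul_le_mul_right e3 (by linarith)

theorem aux_delta (A a b : ℝ) (hA : 0 ≤ A) (ha : 0 < a) (hab : a < b) :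
    A ^ 3 * (b * a * (b - a)) ≤ (A * b) ^ 3 := by
  rw [mul_pow]
  refine mul_le_mul_of_nonneg_left ?_ (by positivity)
  have h1 : b * a ≤ b * b := mul_le_mul_of_nonneg_left hab.le (by linarith)
  have h2 : b - a ≤ b := by linarith
  calc b * a * (b - a) ≤ (b * b) * b := mul_le_mul h1 h2 (by linarith) (by nlinarith)
    _ = b ^ 3 := by ring

/-- **Gap principle.** -/
theorem gap (n a b c d : ℤ) (hn : n ≠ 0) (ha : 0 < a) (hab : a < b) (hbc : b < c) (hcd : c < d)
    (hac : IsSquare (a * c + n)) (hbcs : IsSquare (b * c + n)) (had : IsSquare (a * d + n))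
    (hbd : IsSquare (b * d + n)) (hcds : IsSquare (c * d + n))
    (Y : ℝ) (hY : 0 < Y) (hY4 : Y ^ 4 = a * b * c) (hYM : 512 * ((|n| : ℤ) * b : ℝ) ^ 9 ≤ Y) :
    (d : ℝ) ≤ Y ^ 114 := by
  obtain ⟨s', hs'⟩ := hac
  obtain ⟨t', ht'⟩ := hbcs
  obtain ⟨x', hx'⟩ := had
  obtain ⟨y', hy'⟩ := hbd
  obtain ⟨z', hz'⟩ := hcds
  set s := |s'| with hsdef
  set t := |t'| with htdef
  set x := |x'| with hxdef
  set y := |y'| with hydef
  set z := |z'| with hzdef
  have hs : a * c + n = s ^ 2 := by rw [hs', hsdef, sq_abs, sq]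
  have ht : b * c + n = t ^ 2 := by rw [ht', htdef, sq_abs, sq]
  have hx : a * d + n = x ^ 2 := by rw [hx', hxdef, sq_abs, sq]
  have hy : b * d + n = y ^ 2 := by rw [hy', hydef, sq_abs, sq]
  have hz : c * d + n = z ^ 2 := by rw [hz', hzdef, sq_abs, sq]
  have hs0 : 0 ≤ s := abs_nonneg _
  have ht0 : 0 ≤ t := abs_nonneg _
  have hx0 : 0 ≤ x := abs_nonneg _
  have hy0 : 0 ≤ y := abs_nonneg _
  have hz0 : 0 ≤ z := abs_nonneg _
  -- real versions
  have hb : 0 < b := by linarith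
  have hc : 0 < c := by linarith
  have hd : 0 < d := by linarith
  have haR : (1 : ℝ) ≤ a := by exact_mod_cast ha
  have hbR : (2 : ℝ) ≤ b := by exact_mod_cast (by linarith : (2 : ℤ) ≤ b)
  have hcR : (0 : ℝ) < c := by exact_mod_cast hc
  have hdR : (0 : ℝ) < d := by exact_mod_cast hd
  have habR : (a : ℝ) < b := by exact_mod_cast hab
  have hbcR : (b : ℝ) < c := by exact_mod_cast hbc
  have hcdR : (c : ℝ) < d := by exact_mod_cast hcd
  have hnabs : (1 : ℤ) ≤ |n| := Int.one_le_abs hn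
  set A : ℝ := ((|n| : ℤ) : ℝ) with hA
  have hA1 : (1 : ℝ) ≤ A := by rw [hA]; exact_mod_cast hnabs
  have hAn : |(n : ℝ)| = A := by rw [hA]; push_cast; rfl
  set M : ℝ := A * b with hM
  have hM2 : 2 ≤ M := by rw [hM]; nlinarith
  have hM1 : 1 ≤ M := by linarith
  have hM0 : 0 < M := by linarith
  have hM9 : 1 ≤ M ^ 9 := one_le_pow₀ hM1
  have hMM9 : M ≤ M ^ 9 := by
    calc M = M ^ 1 := (pow_one M).symm
      _ ≤ M ^ 9 := pow_le_pow_right₀ hM1 (by norm_num)
  have hY512 : 512 ≤ Y := by linarith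
  have hY512M : 512 * M ≤ Y := by linarith
  have hY1 : 1 ≤ Y := by linarith
  have hYY4 : Y ≤ Y ^ 4 := by
    calc Y = Y ^ 1 := (pow_one Y).symm
      _ ≤ Y ^ 4 := pow_le_pow_right₀ hY1 (by norm_num)
  -- sizes: M ≤ a c
  have hMab : 2 * A ≤ a * c := aux_size A a b c M Y hA1 hbR hM hY1 hY512M hY4
  have hMbc : 2 * A ≤ b * c :=
    le_trans hMab (mul_le_mul_of_nonneg_right habR.le hcR.le)
  -- N
  set N : ℕ := (a * b * c).toNat with hNdef
  have habc : 0 < a * b * c := by positivity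
  have hNZ : ((N : ℤ)) = a * b * c := by rw [hNdef]; exact Int.toNat_of_nonneg habc.le
  have hNR : (N : ℝ) = a * b * c := by
    have : ((N : ℤ) : ℝ) = ((a * b * c : ℤ) : ℝ) := by rw [hNZ]
    push_cast at this
    exact this
  have hNY : (N : ℝ) = Y ^ 4 := by rw [hNR, hY4]
  have hN0 : 0 < N := by
    have : (0 : ℤ) < N := by rw [hNZ]; exact habc
    exact_mod_cast this
  set X : ℝ := 1 / (N : ℝ) with hX
  have hX0 : 0 < X := by rw [hX]; positivity
  have hXY : X = 1 / Y ^ 4 := by rw [hX, hNY]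
  have hMX : (M + 1) * X ≤ 1 / 2 := by
    rw [hXY, mul_one_div, div_le_iff₀ (by positivity)]
    linarith
  have hMX' : M * X ≤ 1 / 2 := by linarith
  have hX12 : |X| ≤ 1 / 2 := by
    rw [abs_of_pos hX0]
    have := mul_le_mul_of_nonneg_right hM1 hX0.le
    linarith
  -- nodes
  set α : Fin 3 → ℤ := ![0, n * b, n * a] with hα
  have hα0 : α 0 = 0 := rfl
  have hα1 : α 1 = n * b := rfl
  have hα2 : α 2 = n * a := rfl
  have hnb : n * b ≠ 0 := mul_ne_zero hn (ne_of_gt hb)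
  have hna : n * a ≠ 0 := mul_ne_zero hn (ne_of_gt ha)
  have hnab : n * b ≠ n * a := fun h => (ne_of_gt hab) (mul_left_cancel₀ hn h)
  have hinj : Function.Injective α := by
    intro i j hij
    fin_cases i <;> fin_cases j <;> simp [hα] at hij ⊢
    · exact absurd hij (by push Not; exact ⟨hn, ne_of_gt hb⟩)
    · exact absurd hij (by push Not; exact ⟨hn, ne_of_gt ha⟩)
    · exact absurd hij (by push Not; exact ⟨hn, ne_of_gt hb⟩)
    · rcases hij with h | h
      · linarith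
      · exact absurd h hn
    · exact absurd hij (by push Not; exact ⟨hn, ne_of_gt ha⟩)
    · rcases hij with h | h
      · linarith
      · exact absurd h hn
  set a' : Fin 3 → ℝ := fun i => (α i : ℝ) with ha'
  have ha'0 : a' 0 = 0 := by simp [ha', hα0]
  have ha'1 : a' 1 = n * b := by simp [ha', hα1]
  have ha'2 : a' 2 = n * a := by simp [ha', hα2]
  have hinj' : Function.Injective a' := by
    intro i j hij
    apply hinj
    have : ((α i : ℤ) : ℝ) = ((α j : ℤ) : ℝ) := hij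
    exact_mod_cast this
  have ha1 : ∀ i j, i ≠ j → 1 ≤ |a' i - a' j| := by
    intro i j hij
    have h1 : α i - α j ≠ 0 := sub_ne_zero.mpr (fun h => hij (hinj h))
    have h2 : (1 : ℤ) ≤ |α i - α j| := Int.one_le_abs h1
    have h3 : ((1 : ℤ) : ℝ) ≤ ((|α i - α j| : ℤ) : ℝ) := by exact_mod_cast h2
    push_cast at h3
    exact h3
  have haM : ∀ j, |a' j| ≤ M := by
    intro j
    fin_cases j
    · show |a' 0| ≤ M
      rw [ha'0, abs_zero]; exact hM0.le
    · show |a' 1| ≤ M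
      rw [ha'1, abs_mul, hAn, abs_of_pos (show (0 : ℝ) < b by linarith)]
    · show |a' 2| ≤ M
      rw [ha'2, abs_mul, hAn, abs_of_pos (show (0 : ℝ) < a by linarith), hM]
      exact mul_le_mul_of_nonneg_left habR.le (by linarith)
  have hajX : ∀ j, |a' j * X| ≤ 1 / 2 := by
    intro j
    rw [abs_mul, abs_of_pos hX0]
    exact le_trans (mul_le_mul_of_nonneg_right (haM j) hX0.le) hMX'
  have hlow : ∀ j, 1 / 2 ≤ 1 + a' j * X := fun j => by
    have := (abs_le.mp (hajX j)).1; linarith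
  have hupp : ∀ j, 1 + a' j * X ≤ 2 := fun j => by
    have := (abs_le.mp (hajX j)).2; linarith
  have hne0 : ∀ j, 1 + a' j * X ≠ 0 := fun j => by have := hlow j; linarith
  have hNα : ∀ j, (N : ℝ) + α j ≠ 0 := by
    intro j h
    have h1 := hlow j
    have h2 : (1 + a' j * X) * N = N + α j := by
      rw [hX, ha']; field_simp
    rw [h] at h2
    have hNpos : (0 : ℝ) < N := by exact_mod_cast hN0
    have h3 : 0 < (1 + a' j * X) * N := mul_pos (by linarith) hNpos
    linarith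
  -- Δ
  set Δ : ℤ := (α 0 - α 1) * (α 0 - α 2) * (α 1 - α 2) with hΔdef
  have hΔ : ∀ j, ∃ t : ℤ, (∏ h ∈ univ.erase j, (α j - α h)) * t = Δ := by
    intro j
    fin_cases j
    · refine ⟨α 1 - α 2, ?_⟩
      show (∏ h ∈ univ.erase (0 : Fin 3), (α 0 - α h)) * (α 1 - α 2) = Δ
      rw [erase0, prod_pair (by decide), hΔdef]
    · refine ⟨-(α 0 - α 2), ?_⟩
      show (∏ h ∈ univ.erase (1 : Fin 3), (α 1 - α h)) * _ = Δ
      rw [erase1, prod_pair (by decide), hΔdef]; ring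
    · refine ⟨α 0 - α 1, ?_⟩
      show (∏ h ∈ univ.erase (2 : Fin 3), (α 2 - α h)) * _ = Δ
      rw [erase2, prod_pair (by decide), hΔdef]; ring
  have hΔ0 : Δ ≠ 0 := by
    rw [hΔdef, hα0, hα1, hα2]
    refine mul_ne_zero (mul_ne_zero ?_ ?_) (sub_ne_zero.mpr hnab)
    · simpa using ⟨hn, ne_of_gt hb⟩
    · simpa using ⟨hn, ne_of_gt ha⟩
  have hΔM : |(Δ : ℝ)| ≤ M ^ 3 := by
    have e1 : (Δ : ℝ) = (n : ℝ) ^ 3 * (b * a * (b - a)) := by
      rw [hΔdef, hα0, hα1, hα2]; push_cast; ring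
    have e2 : (0 : ℝ) ≤ b * a * (b - a) := by
      have h1 : (0 : ℝ) ≤ b - a := by linarith
      positivity
    rw [e1, abs_mul, abs_pow, hAn, abs_of_nonneg e2]
    exact aux_delta A a b (by linarith) (by linarith) habR
  -- real squares
  have hsR : (a : ℝ) * c + n = (s : ℝ) ^ 2 := by exact_mod_cast hs
  have htR : (b : ℝ) * c + n = (t : ℝ) ^ 2 := by exact_mod_cast ht
  have hxR : (a : ℝ) * d + n = (x : ℝ) ^ 2 := by exact_mod_cast hx
  have hyR : (b : ℝ) * d + n = (y : ℝ) ^ 2 := by exact_mod_cast hy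
  have hzR : (c : ℝ) * d + n = (z : ℝ) ^ 2 := by exact_mod_cast hz
  have hs0R : (0 : ℝ) ≤ s := by exact_mod_cast hs0
  have ht0R : (0 : ℝ) ≤ t := by exact_mod_cast ht0
  have hx0R : (0 : ℝ) ≤ x := by exact_mod_cast hx0
  have hy0R : (0 : ℝ) ≤ y := by exact_mod_cast hy0
  have hz0R : (0 : ℝ) ≤ z := by exact_mod_cast hz0
  set θ : Fin 3 → ℝ := fun j => Real.sqrt (1 + a' j * X) with hθ
  set v : Fin 3 → ℤ := ![a * b * z, b * s * x, a * t * y] with hv
  have hv0 : v 0 = a * b * z := rfl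
  have hv1 : v 1 = b * s * x := rfl
  have hv2 : v 2 = a * t * y := rfl
  set q : ℝ := (a : ℝ) * b * z with hq
  set D : ℝ := Real.sqrt d with hD
  have hD2 : D ^ 2 = d := Real.sq_sqrt hdR.le
  have hDpos : 0 < D := Real.sqrt_pos.mpr hdR
  set sc : ℝ := Real.sqrt c with hsc
  have hsc2 : sc ^ 2 = c := Real.sq_sqrt hcR.le
  have hsc0 : 0 ≤ sc := Real.sqrt_nonneg _
  have hE0 : (v 0 : ℝ) - q * θ 0 = 0 := by
    rw [hv0, hθ, hq]; simp [ha'0]
  have hE1 : |(v 1 : ℝ) - q * θ 1| * D ≤ 2 * M * sc := by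
    have h := approx n a b c d s x z (θ 1) (by linarith) (by linarith) (by linarith) hcdR hsR hxR hzR
      hs0R hx0R hz0R (by rw [hAn]; exact hMab) (by
        rw [hθ]; simp only
        rw [ha'1, hX, hNR])
    rw [hAn] at h
    rw [hv1, hq]; push_cast
    exact h
  have hE2 : |(v 2 : ℝ) - q * θ 2| * D ≤ 2 * M * sc := by
    have h := approx n b a c d t y z (θ 2) (by linarith) (by linarith) (by linarith) hcdR htR hyR hzR
      ht0R hy0R hz0R (by rw [hAn]; exact hMbc) (by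
        rw [hθ]; simp only
        rw [ha'2, hX, hNR]; ring_nf)
    rw [hAn] at h
    rw [hv2, hq]; push_cast
    have e : (a : ℝ) * b * z * θ 2 = b * a * z * θ 2 := by ring
    rw [e]
    refine le_trans h ?_
    refine mul_le_mul_of_nonneg_right ?_ hsc0
    rw [hM]
    have := mul_le_mul_of_nonneg_left habR.le (show 0 ≤ A by linarith)
    linarith
  have hcd2 : 2 * A ≤ c * d := aux_cd A a c d hMab hcR (by linarith)
  have hncd : (n : ℝ) ≤ c * d := by
    have := le_abs_self (n : ℝ)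
    rw [hAn] at this
    linarith
  have hq0 : 0 ≤ q := by rw [hq]; positivity
  have hqD : q ≤ 2 * Y ^ 4 * D :=
    aux_q a b c d n z q D Y (by linarith) (by linarith) (by linarith) hdR hq hzR hncd hY hY4
      hDpos.le hD2
  have hscY : sc ≤ Y ^ 4 :=
    aux_sc a b c sc Y haR (by linarith) (by linarith) hY hY4 hsc2
  by_contra hcon
  push Not at hcon
  have hDY : Y ^ 57 < D := by
    rw [hD]
    refine Real.lt_sqrt_of_sq_lt ?_
    rw [← pow_mul]
    exact hcon
  have hvne : ∃ j, v j ≠ 0 := by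
    refine ⟨0, ?_⟩
    rw [hv0]
    have hzne : z ≠ 0 := by
      intro h
      rw [h] at hzR
      have h1 := neg_abs_le (n : ℝ)
      push_cast at hzR
      rw [hAn] at h1
      linarith
    exact mul_ne_zero (mul_ne_zero (ne_of_gt ha) (ne_of_gt hb)) hzne
  refine contra M Y D sc q hM1 hYM hDY hq0 hqD hscY fun k => ?_
  obtain ⟨r, hr, hlow1⟩ := lower α hinj k N hN0 hNα Δ hΔ hΔ0 v hvne
  have hfun : (fun i => (α i : ℝ)) = a' := rfl
  rw [hfun, ← hX] at hlow1
  set mult : ℝ := (N : ℝ) ^ k * |(Δ : ℝ)| ^ (k + 1) * (4 * |(Δ : ℝ)|) ^ k with hmult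
  have hmult0 : 0 ≤ mult := by rw [hmult]; positivity
  have hmultle : mult ≤ (Y ^ 4) ^ k * 4 ^ k * (M ^ 3) ^ (2 * k + 1) := by
    have h1 : |(Δ : ℝ)| ^ (k + 1) ≤ (M ^ 3) ^ (k + 1) := pow_le_pow_left₀ (abs_nonneg _) hΔM _
    have h2 : (4 * |(Δ : ℝ)|) ^ k ≤ (4 * M ^ 3) ^ k :=
      pow_le_pow_left₀ (by positivity) (by linarith) _
    calc mult ≤ (Y ^ 4) ^ k * (M ^ 3) ^ (k + 1) * (4 * M ^ 3) ^ k := by
          rw [hmult, hNY]
          exact mul_le_mul (mul_le_mul_of_nonneg_left h1 (by positivity)) h2 (by positivity)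
            (by positivity)
      _ = (Y ^ 4) ^ k * 4 ^ k * (M ^ 3) ^ (2 * k + 1) := by
          rw [mul_pow 4]
          have : 2 * k + 1 = (k + 1) + k := by ring
          rw [this, pow_add]
          ring
  have hr2 : r ≤ 2 := by omega
  have hM11 : (M + 1) ^ r ≤ (M + 1) ^ 2 := pow_le_pow_right₀ (by linarith) hr2
  refine ⟨r, mult, |∑ j, θ j * psi a' k X j (Polynomial.X ^ r)|, 8 * 32 ^ k * (M + 1) ^ 2,
    2 * M * sc / D, hr2, abs_nonneg _, by positivity, by positivity, hmult0, hmultle, ?_, le_rfl,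
    ?_, ?_⟩
  · rw [← hXY]
    exact small a' hinj' k r hr2 X M ha1 haM hX0 hMX
  · rw [div_mul_cancel₀ _ (ne_of_gt hDpos)]
  · refine le_trans hlow1 ?_
    rw [← mul_add]
    refine mul_le_mul_of_nonneg_left ?_ hmult0
    have hsplit : ∑ j, (v j : ℝ) * psi a' k X j (Polynomial.X ^ r) =
        q * (∑ j, θ j * psi a' k X j (Polynomial.X ^ r)) +
        ∑ j, ((v j : ℝ) - q * θ j) * psi a' k X j (Polynomial.X ^ r) := by
      rw [mul_sum, ← sum_add_distrib]
      refine sum_congr rfl fun j _ => ?_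
      ring
    rw [hsplit]
    refine le_trans (abs_add_le _ _) ?_
    rw [abs_mul, abs_of_nonneg hq0]
    refine add_le_add le_rfl ?_
    rw [Fin.sum_univ_three, hE0, zero_mul, zero_add]
    refine le_trans (abs_add_le _ _) ?_
    rw [abs_mul, abs_mul]
    have hE1' : |(v 1 : ℝ) - q * θ 1| ≤ 2 * M * sc / D := by rwa [le_div_iff₀ hDpos]
    have hE2' : |(v 2 : ℝ) - q * θ 2| ≤ 2 * M * sc / D := by rwa [le_div_iff₀ hDpos]
    have hp : ∀ j, |psi a' k X j (Polynomial.X ^ r)| ≤ 8 * 32 ^ k * (M + 1) ^ 2 := fun j => by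
      refine le_trans (abs_psi_le a' k X M ha1 haM hlow hupp hX12 j r) ?_
      exact mul_le_mul_of_nonneg_left hM11 (by positivity)
    have hF'0 : 0 ≤ 8 * 32 ^ k * (M + 1) ^ 2 := by positivity
    have g1 := mul_le_mul hE1' (hp 1) (abs_nonneg _) (by positivity)
    have g2 := mul_le_mul hE2' (hp 2) (abs_nonneg _) (by positivity)
    linarith

end Pool.Agent.Helper15.Pade
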