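import Pool.Agent.Helper15.Core

set_option autoImplicit false

namespace Pool.Agent.Helper15

open Finset

theorem rem_bound (T : ℝ) (hT : 1 < T) (k H : ℕ) (hk : 1 ≤ k) (hkH : 8 * k + 1 ≤ H)
    (hTk : (H : ℝ) ^ 4 ≤ T ^ (2 * k)) (y : ℝ) (hy : |y| ≤ 1 / T ^ 2) :
    |y| < 1 ∧ |y| ^ k / (1 - |y|) ≤ 1 / (H : ℝ) ^ 3 := by
  have hkHr : 8 * (k : ℝ) + 1 ≤ H := by exact_mod_cast hkH
  have hk1 : (1 : ℝ) ≤ k := by exact_mod_cast hk
  have hHpos : (0 : ℝ) < H := by linarith
  have hT2 : 1 < T ^ 2 := by nlinarith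
  set t : ℝ := 1 / T ^ 2 with ht
  have ht0 : 0 < t := by positivity
  have ht1 : t < 1 := by
    rw [ht, div_lt_one (by positivity)]; exact hT2
  have htk : t ^ k ≤ 1 / (H : ℝ) ^ 4 := by
    rw [ht, div_pow, one_pow, ← pow_mul]
    exact one_div_le_one_div_of_le (by positivity) hTk
  have h1t : 1 / (H : ℝ) ≤ 1 - t := by
    by_contra hcon
    push Not at hcon
    have h1 : 1 - 1 / (H : ℝ) ≤ t := by linarith
    have hH1 : 1 / (H : ℝ) ≤ 1 := by
      rw [div_le_one hHpos]; linarith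
    have h2 : (1 - 1 / (H : ℝ)) ^ k ≤ t ^ k := pow_le_pow_left₀ (by linarith) h1 k
    have h3 : 1 + (k : ℝ) * (-(1 / (H : ℝ))) ≤ (1 + (-(1 / (H : ℝ)))) ^ k :=
      one_add_mul_le_pow (by linarith) k
    have h4 : (k : ℝ) * (1 / H) ≤ 1 / 8 := by
      rw [mul_one_div, div_le_iff₀ hHpos]; linarith
    have h5 : 1 / (H : ℝ) ^ 4 ≤ 1 / 9 := by
      apply one_div_le_one_div_of_le (by norm_num)
      have : (9 : ℝ) ≤ H := by linarith
      nlinarith [pow_le_pow_left₀ (by norm_num : (0 : ℝ) ≤ 9) this 4]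
    have h6 : (1 + (-(1 / (H : ℝ)))) ^ k = (1 - 1 / (H : ℝ)) ^ k := by ring_nf
    rw [h6] at h3
    linarith
  refine ⟨lt_of_le_of_lt hy ht1, ?_⟩
  have h7 : |y| ^ k ≤ 1 / (H : ℝ) ^ 4 := le_trans (pow_le_pow_left₀ (abs_nonneg _) hy k) htk
  have h8 : 1 / (H : ℝ) ≤ 1 - |y| := by linarith
  have h9 : (0 : ℝ) < 1 / H := by positivity
  calc |y| ^ k / (1 - |y|) ≤ (1 / (H : ℝ) ^ 4) / (1 / H) :=
        div_le_div₀ (by positivity) h7 h9 h8
    _ = 1 / (H : ℝ) ^ 3 := by field_simp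

theorem card_le_of_pos (P : Finset ℤ) (H : ℕ) (hP : ∀ a ∈ P, 0 < a ∧ a ≤ H) : P.card ≤ H := by
  have : P ⊆ Finset.Icc 1 (H : ℤ) := by
    intro a ha
    rw [Finset.mem_Icc]
    have := hP a ha
    constructor <;> omega
  have h := Finset.card_le_card this
  simpa using h

/-- Elements of size at least `T * √|n|` and at most `H`. -/
theorem large_bound (n : ℤ) (hn : n ≠ 0) (T : ℝ) (hT : 1 < T) (k H : ℕ) (hk : 1 ≤ k)
    (hTk : (H : ℝ) ^ 4 ≤ T ^ (2 * k)) (P : Finset ℤ)
    (hPl : ∀ a ∈ P, T * Real.sqrt |(n : ℝ)| ≤ a) (hPu : ∀ a ∈ P, a ≤ H)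
    (hsq : ∀ a ∈ P, ∀ x ∈ P, a ≠ x → IsSquare (a * x + n)) : P.card ≤ 8 * k := by
  by_contra hcon
  push Not at hcon
  have hn1 : 0 < |(n : ℝ)| := abs_pos.2 (by exact_mod_cast hn)
  set m : ℝ := T * Real.sqrt |(n : ℝ)| with hm
  have hm0 : 0 < m := by positivity
  have hm2 : m ^ 2 = T ^ 2 * |(n : ℝ)| := by
    rw [hm, mul_pow, Real.sq_sqrt hn1.le]
  have hposr : ∀ a ∈ P, (0 : ℝ) < a := fun a ha => lt_of_lt_of_le hm0 (hPl a ha)
  have hpos : ∀ a ∈ P, 0 < a := fun a ha => by exact_mod_cast hposr a ha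
  have hPH : P.card ≤ H := card_le_of_pos P H (fun a ha => ⟨hpos a ha, hPu a ha⟩)
  have hkH : 8 * k + 1 ≤ H := by omega
  have hHpos : (0 : ℝ) < H := by
    have : 0 < H := by omega
    exact_mod_cast this
  have hPur : ∀ a ∈ P, (a : ℝ) ≤ H := fun a ha => by exact_mod_cast hPu a ha
  obtain ⟨p0, hp0⟩ : P.Nonempty := by rw [← Finset.card_pos]; omega
  have hmH : m ≤ H := le_trans (hPl p0 hp0) (hPur p0 hp0)
  have hT2 : 1 < T ^ 2 := by nlinarith
  have hprod : ∀ a ∈ P, ∀ x ∈ P, T ^ 2 * |(n : ℝ)| ≤ a * x := by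
    intro a ha x hx
    rw [← hm2, sq]
    exact mul_le_mul (hPl a ha) (hPl x hx) hm0.le (hposr a ha).le
  have hy : ∀ a ∈ P, ∀ x ∈ P, |(n : ℝ) / (a * x)| ≤ 1 / T ^ 2 := by
    intro a ha x hx
    have h1 : (0 : ℝ) < a * x := mul_pos (hposr a ha) (hposr x hx)
    rw [abs_div, abs_of_pos h1, div_le_div_iff₀ h1 (by positivity)]
    have := hprod a ha x hx
    linarith
  refine core n hn k H hk P hcon hPH hpos hsq ?_
    (fun j a => Real.sqrt a / (a : ℝ) ^ j)
    (fun j x => Ring.choose (1 / 2 : ℝ) j * (n : ℝ) ^ j * (Real.sqrt x / (x : ℝ) ^ j))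
    (fun j => if j = 0 then Real.sqrt H else |(n : ℝ)| ^ j * (Real.sqrt m / m ^ j)) ?_ ?_ ?_ ?_
  · intro a ha x hx _
    have h1 := hprod a ha x hx
    have h2 : |(n : ℝ)| < (a : ℝ) * x := by nlinarith
    have h3 := neg_abs_le (n : ℝ)
    have : (0 : ℝ) < (a : ℝ) * x + n := by linarith
    exact_mod_cast this
  · intro j _ a ha
    have := hposr a ha
    positivity
  · intro j _ x hx
    have hx0 := hposr x hx
    split_ifs with hj
    · subst hj
      simp only [Ring.choose_zero_right, pow_zero, one_mul, div_one]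
      rw [abs_of_nonneg (Real.sqrt_nonneg _)]
      exact Real.sqrt_le_sqrt (hPur x hx)
    · rw [abs_mul, abs_mul, abs_pow]
      have h1 : |Real.sqrt (x : ℝ) / (x : ℝ) ^ j| ≤ Real.sqrt m / m ^ j := by
        rw [abs_of_nonneg (by positivity)]
        obtain ⟨i, rfl⟩ := Nat.exists_eq_succ_of_ne_zero hj
        rw [div_le_div_iff₀ (by positivity) (by positivity), Nat.succ_eq_add_one, pow_succ', pow_succ']
        have e1 : Real.sqrt (x : ℝ) * m ≤ Real.sqrt m * x := by
          have hs : Real.sqrt m ≤ Real.sqrt x := Real.sqrt_le_sqrt (hPl x hx)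
          have h3 : m = Real.sqrt m * Real.sqrt m := (Real.mul_self_sqrt hm0.le).symm
          have h4 : (x : ℝ) = Real.sqrt x * Real.sqrt x := (Real.mul_self_sqrt hx0.le).symm
          calc Real.sqrt (x : ℝ) * m = Real.sqrt x * Real.sqrt m * Real.sqrt m := by
                rw [mul_assoc, ← h3]
            _ ≤ Real.sqrt x * Real.sqrt m * Real.sqrt x :=
                mul_le_mul_of_nonneg_left hs (by positivity)
            _ = Real.sqrt m * (Real.sqrt x * Real.sqrt x) := by ring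
            _ = Real.sqrt m * x := by rw [← h4]
        have e2 : m ^ i ≤ (x : ℝ) ^ i := pow_le_pow_left₀ hm0.le (hPl x hx) i
        calc Real.sqrt (x : ℝ) * (m * m ^ i) = (Real.sqrt x * m) * m ^ i := by ring
          _ ≤ (Real.sqrt m * x) * (x : ℝ) ^ i :=
              mul_le_mul e1 e2 (by positivity) (by positivity)
          _ = Real.sqrt m * ((x : ℝ) * (x : ℝ) ^ i) := by ring
      have h2 : |Ring.choose (1 / 2 : ℝ) j| * |(n : ℝ)| ^ j ≤ |(n : ℝ)| ^ j := by
        calc _ ≤ 1 * |(n : ℝ)| ^ j :=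
              mul_le_mul_of_nonneg_right (abs_choose_half_le j) (by positivity)
          _ = _ := one_mul _
      exact mul_le_mul h2 h1 (abs_nonneg _) (by positivity)
  · intro j _ a ha
    have ha0 := hposr a ha
    split_ifs with hj
    · subst hj
      simp only [pow_zero, div_one]
      calc Real.sqrt (a : ℝ) * Real.sqrt H ≤ Real.sqrt H * Real.sqrt H :=
            mul_le_mul_of_nonneg_right (Real.sqrt_le_sqrt (hPur a ha)) (Real.sqrt_nonneg _)
        _ = H := Real.mul_self_sqrt hHpos.le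
    · have h1 : Real.sqrt (a : ℝ) / (a : ℝ) ^ j ≤ Real.sqrt m / m ^ j := by
        obtain ⟨i, rfl⟩ := Nat.exists_eq_succ_of_ne_zero hj
        rw [div_le_div_iff₀ (by positivity) (by positivity), Nat.succ_eq_add_one, pow_succ', pow_succ']
        have e1 : Real.sqrt (a : ℝ) * m ≤ Real.sqrt m * a := by
          have hs : Real.sqrt m ≤ Real.sqrt a := Real.sqrt_le_sqrt (hPl a ha)
          have h3 : m = Real.sqrt m * Real.sqrt m := (Real.mul_self_sqrt hm0.le).symm
          have h4 : (a : ℝ) = Real.sqrt a * Real.sqrt a := (Real.mul_self_sqrt ha0.le).symm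
          calc Real.sqrt (a : ℝ) * m = Real.sqrt a * Real.sqrt m * Real.sqrt m := by
                rw [mul_assoc, ← h3]
            _ ≤ Real.sqrt a * Real.sqrt m * Real.sqrt a :=
                mul_le_mul_of_nonneg_left hs (by positivity)
            _ = Real.sqrt m * (Real.sqrt a * Real.sqrt a) := by ring
            _ = Real.sqrt m * a := by rw [← h4]
        have e2 : m ^ i ≤ (a : ℝ) ^ i := pow_le_pow_left₀ hm0.le (hPl a ha) i
        calc Real.sqrt (a : ℝ) * (m * m ^ i) = (Real.sqrt a * m) * m ^ i := by ring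
          _ ≤ (Real.sqrt m * a) * (a : ℝ) ^ i :=
              mul_le_mul e1 e2 (by positivity) (by positivity)
          _ = Real.sqrt m * ((a : ℝ) * (a : ℝ) ^ i) := by ring
      calc Real.sqrt (a : ℝ) / (a : ℝ) ^ j * (|(n : ℝ)| ^ j * (Real.sqrt m / m ^ j))
          ≤ Real.sqrt m / m ^ j * (|(n : ℝ)| ^ j * (Real.sqrt m / m ^ j)) :=
            mul_le_mul_of_nonneg_right h1 (by positivity)
        _ = (Real.sqrt m * Real.sqrt m) * (|(n : ℝ)| / m ^ 2) ^ j := by
            rw [div_pow]; field_simp; ring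
        _ = m * (|(n : ℝ)| / m ^ 2) ^ j := by rw [Real.mul_self_sqrt hm0.le]
        _ ≤ m * 1 := by
            refine mul_le_mul_of_nonneg_left (pow_le_one₀ (by positivity) ?_) hm0.le
            rw [hm2, div_le_one (by positivity)]
            nlinarith
        _ ≤ H := by rw [mul_one]; exact hmH
  · intro a ha x hx _
    have ha0 := hposr a ha
    have hx0 := hposr x hx
    have hax0 : (0 : ℝ) < a * x := mul_pos ha0 hx0
    obtain ⟨hy1, hy2⟩ := rem_bound T hT k H hk hkH hTk _ (hy a ha x hx)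
    have hs : Real.sqrt ((a : ℝ) * x + n) = Real.sqrt (a * x) * Real.sqrt (1 + n / (a * x)) := by
      rw [← Real.sqrt_mul hax0.le]
      congr 1
      field_simp
    have hsum : ∑ j ∈ range k, Real.sqrt (a : ℝ) / (a : ℝ) ^ j *
        (Ring.choose (1 / 2 : ℝ) j * (n : ℝ) ^ j * (Real.sqrt x / (x : ℝ) ^ j))
        = Real.sqrt (a * x) * ∑ j ∈ range k, Ring.choose (1 / 2 : ℝ) j * ((n : ℝ) / (a * x)) ^ j := by
      rw [Finset.mul_sum]
      refine Finset.sum_congr rfl (fun j _ => ?_)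
      rw [Real.sqrt_mul ha0.le, div_pow, mul_pow]
      field_simp
    rw [hs, hsum, ← mul_sub, abs_mul, abs_of_nonneg (Real.sqrt_nonneg _)]
    have h1 : Real.sqrt ((a : ℝ) * x) ≤ H := by
      rw [Real.sqrt_le_left hHpos.le, sq]
      exact mul_le_mul (hPur a ha) (hPur x hx) hx0.le hHpos.le
    calc _ ≤ (H : ℝ) * (1 / (H : ℝ) ^ 3) :=
          mul_le_mul h1 (le_trans (sqrt_remainder _ hy1 k) hy2) (abs_nonneg _) hHpos.le
      _ = 1 / (H : ℝ) ^ 2 := by field_simp

/-- Elements of size at most `√|n| / T`. -/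
theorem small_bound (n : ℤ) (T : ℝ) (hT : 1 < T) (k H : ℕ) (hk : 1 ≤ k) (hnH : |n| ≤ H)
    (hn : n ≠ 0)
    (hTk : (H : ℝ) ^ 4 ≤ T ^ (2 * k)) (P : Finset ℤ)
    (hpos : ∀ a ∈ P, 0 < a) (hPu : ∀ a ∈ P, T * a ≤ Real.sqrt |(n : ℝ)|)
    (hsq : ∀ a ∈ P, ∀ x ∈ P, a ≠ x → IsSquare (a * x + n)) : P.card ≤ 8 * k := by
  have hn1 : 0 < |(n : ℝ)| := abs_pos.2 (by exact_mod_cast hn)
  have hT0 : 0 < T := by linarith
  have hT2 : 1 < T ^ 2 := by nlinarith
  set m : ℝ := Real.sqrt |(n : ℝ)| / T with hm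
  have hm0 : 0 < m := by positivity
  have hPm : ∀ a ∈ P, (a : ℝ) ≤ m := by
    intro a ha
    rw [hm, le_div_iff₀ hT0, mul_comm]
    exact hPu a ha
  have hm2 : m ^ 2 = |(n : ℝ)| / T ^ 2 := by
    rw [hm, div_pow, Real.sq_sqrt hn1.le]
  have hposr : ∀ a ∈ P, (0 : ℝ) < a := fun a ha => by exact_mod_cast hpos a ha
  have hprod : ∀ a ∈ P, ∀ x ∈ P, (a : ℝ) * x ≤ |(n : ℝ)| / T ^ 2 := by
    intro a ha x hx
    rw [← hm2, sq]
    exact mul_le_mul (hPm a ha) (hPm x hx) (hposr x hx).le hm0.le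
  have hlt : |(n : ℝ)| / T ^ 2 < |(n : ℝ)| := by
    rw [div_lt_iff₀ (by positivity)]; nlinarith
  rcases lt_or_gt_of_ne hn with hneg | hnpos
  · -- negative n: at most one element
    have : P.card ≤ 1 := by
      rw [Finset.card_le_one]
      intro a ha b hb
      by_contra hab
      obtain ⟨r, hr⟩ := hsq a ha b hb hab
      have h1 : (a : ℝ) * b + n = r * r := by exact_mod_cast hr
      have h2 := hprod a ha b hb
      have h3 : |(n : ℝ)| = -n := abs_of_neg (by exact_mod_cast hneg)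
      nlinarith [mul_self_nonneg (r : ℝ)]
    omega
  · by_contra hcon
    push Not at hcon
    have hnr : (0 : ℝ) < n := by exact_mod_cast hnpos
    have habs : |(n : ℝ)| = n := abs_of_pos hnr
    rw [habs] at hn1 hPu hm hm2 hprod hlt
    have hnHr : (n : ℝ) ≤ H := by
      have := le_trans (le_abs_self n) hnH
      exact_mod_cast this
    have hn1r : (1 : ℝ) ≤ n := by exact_mod_cast hnpos
    have hsn : Real.sqrt (n : ℝ) ≤ H := by
      refine le_trans ?_ hnHr
      rw [Real.sqrt_le_left hnr.le]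
      nlinarith
    have hPur : ∀ a ∈ P, (a : ℝ) ≤ H := by
      intro a ha
      have h1 := hPu a ha
      have h2 := hposr a ha
      nlinarith
    have hPH : P.card ≤ H := card_le_of_pos P H (fun a ha => ⟨hpos a ha, by exact_mod_cast hPur a ha⟩)
    have hkH : 8 * k + 1 ≤ H := by omega
    have hHpos : (0 : ℝ) < H := by
      have : 0 < H := by omega
      exact_mod_cast this
    have hy : ∀ a ∈ P, ∀ x ∈ P, |(a : ℝ) * x / n| ≤ 1 / T ^ 2 := by
      intro a ha x hx
      have h1 : (0 : ℝ) < a * x := mul_pos (hposr a ha) (hposr x hx)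
      rw [abs_of_pos (by positivity), div_le_div_iff₀ hnr (by positivity)]
      have := hprod a ha x hx
      rw [le_div_iff₀ (by positivity)] at this
      linarith
    refine core n hn k H hk P hcon hPH hpos hsq ?_
      (fun j a => (a : ℝ) ^ j)
      (fun j x => Ring.choose (1 / 2 : ℝ) j * (Real.sqrt n * (x : ℝ) ^ j / (n : ℝ) ^ j))
      (fun j => Real.sqrt n * m ^ j / (n : ℝ) ^ j) ?_ ?_ ?_ ?_
    · intro a ha x hx _
      have := mul_pos (hpos a ha) (hpos x hx)
      omega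
    · intro j _ a ha
      have := hposr a ha
      positivity
    · intro j _ x hx
      have hx0 := hposr x hx
      rw [abs_mul, abs_of_nonneg (show (0 : ℝ) ≤ Real.sqrt n * (x : ℝ) ^ j / (n : ℝ) ^ j by positivity)]
      calc _ ≤ 1 * (Real.sqrt n * (x : ℝ) ^ j / (n : ℝ) ^ j) :=
            mul_le_mul_of_nonneg_right (abs_choose_half_le j) (by positivity)
        _ ≤ _ := by
            rw [one_mul]
            refine div_le_div_of_nonneg_right ?_ (by positivity)
            exact mul_le_mul_of_nonneg_left (pow_le_pow_left₀ hx0.le (hPm x hx) j) (Real.sqrt_nonneg _)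
    · intro j _ a ha
      have ha0 := hposr a ha
      calc (a : ℝ) ^ j * (Real.sqrt n * m ^ j / (n : ℝ) ^ j)
          ≤ m ^ j * (Real.sqrt n * m ^ j / (n : ℝ) ^ j) :=
            mul_le_mul_of_nonneg_right (pow_le_pow_left₀ ha0.le (hPm a ha) j) (by positivity)
        _ = Real.sqrt n * (m ^ 2 / n) ^ j := by rw [div_pow]; ring
        _ ≤ Real.sqrt n * 1 := by
            refine mul_le_mul_of_nonneg_left (pow_le_one₀ (by positivity) ?_) (Real.sqrt_nonneg _)
            rw [div_le_one hnr, hm2]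
            exact hlt.le
        _ ≤ H := by rw [mul_one]; exact hsn
    · intro a ha x hx _
      have ha0 := hposr a ha
      have hx0 := hposr x hx
      obtain ⟨hy1, hy2⟩ := rem_bound T hT k H hk hkH hTk _ (hy a ha x hx)
      have hs : Real.sqrt ((a : ℝ) * x + n) = Real.sqrt n * Real.sqrt (1 + a * x / n) := by
        rw [← Real.sqrt_mul hnr.le]
        congr 1
        field_simp
        ring
      have hsum : ∑ j ∈ range k, (a : ℝ) ^ j *
          (Ring.choose (1 / 2 : ℝ) j * (Real.sqrt n * (x : ℝ) ^ j / (n : ℝ) ^ j))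
          = Real.sqrt n * ∑ j ∈ range k, Ring.choose (1 / 2 : ℝ) j * ((a : ℝ) * x / n) ^ j := by
        rw [Finset.mul_sum]
        refine Finset.sum_congr rfl (fun j _ => ?_)
        rw [div_pow, mul_pow]
        ring
      rw [hs, hsum, ← mul_sub, abs_mul, abs_of_nonneg (Real.sqrt_nonneg _)]
      calc _ ≤ (H : ℝ) * (1 / (H : ℝ) ^ 3) :=
            mul_le_mul hsn (le_trans (sqrt_remainder _ hy1 k) hy2) (abs_nonneg _) hHpos.le
        _ = 1 / (H : ℝ) ^ 2 := by field_simp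

end Pool.Agent.Helper15
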