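import Pool.Agent.Helper15.GapMain
import Pool.Agent.Helper15.Ranges

set_option autoImplicit false

namespace Pool.Agent.Helper15

open Finset

/-- One doubling of the exponent: elements in `[m, m²)`. -/
theorem doubling_step (n : ℤ) (hn : n ≠ 0) (m : ℝ) (hm2 : 2 ≤ m) (hnm : (n : ℝ) ^ 2 ≤ m)
    (P : Finset ℤ) (hPl : ∀ a ∈ P, m ≤ a) (hPu : ∀ a ∈ P, (a : ℝ) < m ^ 2)
    (hsq : ∀ a ∈ P, ∀ x ∈ P, a ≠ x → IsSquare (a * x + n)) : P.card ≤ 48 := by
  have hn1 : (1 : ℝ) ≤ |(n : ℝ)| := by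
    have : (1 : ℤ) ≤ |n| := Int.one_le_abs hn
    exact_mod_cast this
  have hn0 : 0 < |(n : ℝ)| := by linarith
  have hm0 : 0 < m := by linarith
  have hn2 : |(n : ℝ)| ^ 2 ≤ m := by rwa [sq_abs]
  have hsn : 0 < Real.sqrt |(n : ℝ)| := Real.sqrt_pos.mpr hn0
  have hsn2 : Real.sqrt |(n : ℝ)| ^ 2 = |(n : ℝ)| := Real.sq_sqrt hn0.le
  set T : ℝ := m / Real.sqrt |(n : ℝ)| with hT
  have hTm : T * Real.sqrt |(n : ℝ)| = m := by rw [hT]; field_simp
  have hT1 : 1 < T := by
    rw [hT, one_lt_div hsn]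
    refine lt_of_pow_lt_pow_left₀ 2 hm0.le ?_
    rw [hsn2]
    nlinarith
  have hH : ∀ a ∈ P, a ≤ (⌊m ^ 2⌋₊ : ℤ) := by
    intro a ha
    have h1 := hPu a ha
    have h2 := hPl a ha
    have ha0 : 0 ≤ a := by
      have : (0 : ℝ) ≤ a := by linarith
      exact_mod_cast this
    have h3 : a.toNat ≤ ⌊m ^ 2⌋₊ := by
      apply Nat.le_floor
      have : ((a.toNat : ℤ) : ℝ) = (a : ℝ) := by rw [Int.toNat_of_nonneg ha0]
      have h4 : ((a.toNat : ℕ) : ℝ) = (a : ℝ) := by exact_mod_cast this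
      rw [h4]; exact h1.le
    have h5 : (a.toNat : ℤ) ≤ (⌊m ^ 2⌋₊ : ℤ) := by exact_mod_cast h3
    rwa [Int.toNat_of_nonneg ha0] at h5
  have h := large_bound n hn T hT1 6 ⌊m ^ 2⌋₊ (by norm_num) ?_ P ?_ hH hsq
  · simpa using h
  · have h1 : ((⌊m ^ 2⌋₊ : ℕ) : ℝ) ≤ m ^ 2 := Nat.floor_le (by positivity)
    have h2 : ((⌊m ^ 2⌋₊ : ℕ) : ℝ) ^ 4 ≤ (m ^ 2) ^ 4 := pow_le_pow_left₀ (by positivity) h1 4
    refine le_trans h2 ?_
    have h3 : T ^ (2 * 6) * |(n : ℝ)| ^ 6 = m ^ 12 := by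
      have e1 : |(n : ℝ)| ^ 6 = Real.sqrt |(n : ℝ)| ^ 12 := by
        calc |(n : ℝ)| ^ 6 = (Real.sqrt |(n : ℝ)| ^ 2) ^ 6 := by rw [hsn2]
          _ = Real.sqrt |(n : ℝ)| ^ 12 := by ring
      rw [e1, ← hTm, mul_pow]
    have h4 : |(n : ℝ)| ^ 6 ≤ m ^ 3 := by
      calc |(n : ℝ)| ^ 6 = (|(n : ℝ)| ^ 2) ^ 3 := by ring
        _ ≤ m ^ 3 := pow_le_pow_left₀ (by positivity) hn2 3
    have h5 : m ^ 3 ≤ m ^ 4 := pow_le_pow_right₀ (by linarith) (by norm_num)
    have h6 : (m ^ 2) ^ 4 * |(n : ℝ)| ^ 6 ≤ T ^ (2 * 6) * |(n : ℝ)| ^ 6 := by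
      rw [h3]
      calc (m ^ 2) ^ 4 * |(n : ℝ)| ^ 6 ≤ (m ^ 2) ^ 4 * m ^ 4 :=
            mul_le_mul_of_nonneg_left (le_trans h4 h5) (by positivity)
        _ = m ^ 12 := by ring
    exact le_of_mul_le_mul_right h6 (by positivity)
  · intro a ha
    rw [hTm]; exact hPl a ha

/-- Elements in `[m, m^(2^j))`. -/
theorem doubling (n : ℤ) (hn : n ≠ 0) (m : ℝ) (hm2 : 2 ≤ m) (hnm : (n : ℝ) ^ 2 ≤ m) (j : ℕ) :
    ∀ P : Finset ℤ, (∀ a ∈ P, m ≤ a) → (∀ a ∈ P, (a : ℝ) < m ^ (2 ^ j)) →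
    (∀ a ∈ P, ∀ x ∈ P, a ≠ x → IsSquare (a * x + n)) → P.card ≤ 48 * j := by
  induction j with
  | zero =>
    intro P h1 h2 _
    have : P = ∅ := by
      rw [Finset.eq_empty_iff_forall_notMem]
      intro a ha
      have e1 := h1 a ha
      have e2 := h2 a ha
      simp at e2
      linarith
    simp [this]
  | succ j ih =>
    intro P h1 h2 h3
    classical
    set P1 := P.filter (fun a : ℤ => (a : ℝ) < m ^ (2 ^ j)) with hP1
    set P2 := P.filter (fun a : ℤ => ¬ (a : ℝ) < m ^ (2 ^ j)) with hP2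
    have hc : P.card = P1.card + P2.card :=
      (Finset.card_filter_add_card_filter_not (s := P) (fun a : ℤ => (a : ℝ) < m ^ (2 ^ j))).symm
    have c1 : P1.card ≤ 48 * j := by
      refine ih P1 ?_ ?_ ?_
      · intro a ha; exact h1 a (Finset.mem_filter.mp ha).1
      · intro a ha; exact (Finset.mem_filter.mp ha).2
      · intro a ha x hx hne
        exact h3 a (Finset.mem_filter.mp ha).1 x (Finset.mem_filter.mp hx).1 hne
    have hmm : m ≤ m ^ (2 ^ j) := by
      calc m = m ^ 1 := (pow_one m).symm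
        _ ≤ m ^ (2 ^ j) := pow_le_pow_right₀ (by linarith) Nat.one_le_two_pow
    have c2 : P2.card ≤ 48 := by
      refine doubling_step n hn (m ^ (2 ^ j)) (by linarith) (by linarith) P2 ?_ ?_ ?_
      · intro a ha
        have := (Finset.mem_filter.mp ha).2
        linarith
      · intro a ha
        have := h2 a (Finset.mem_filter.mp ha).1
        rw [← pow_mul, ← pow_succ]
        exact this
      · intro a ha x hx hne
        exact h3 a (Finset.mem_filter.mp ha).1 x (Finset.mem_filter.mp hx).1 hne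
    omega

/-- Elements at least `max(2, n²)`. -/
theorem huge_bound (n : ℤ) (hn : n ≠ 0) (P : Finset ℤ) (hP2 : ∀ a ∈ P, 2 ≤ a)
    (hPn : ∀ a ∈ P, n ^ 2 ≤ a)
    (hsq : ∀ a ∈ P, ∀ x ∈ P, a ≠ x → IsSquare (a * x + n)) : P.card ≤ 577 := by
  classical
  rcases P.eq_empty_or_nonempty with h | hne
  · simp [h]
  set a := P.min' hne with ha
  have haP : a ∈ P := P.min'_mem hne
  have hamin : ∀ x ∈ P, a ≤ x := fun x hx => P.min'_le x hx
  set P' := P.erase a with hP'
  have hcard : P.card = P'.card + 1 := by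
    rw [hP', Finset.card_erase_of_mem haP]
    have : 0 < P.card := Finset.card_pos.mpr hne
    omega
  rcases P'.eq_empty_or_nonempty with h | hne'
  · rw [hcard, h]; simp
  set b := P'.min' hne' with hb
  have hbP' : b ∈ P' := P'.min'_mem hne'
  have hbP : b ∈ P := Finset.mem_of_mem_erase hbP'
  have hbmin : ∀ x ∈ P', b ≤ x := fun x hx => P'.min'_le x hx
  have hab : a < b := lt_of_le_of_ne (hamin b hbP) (Ne.symm (Finset.ne_of_mem_erase hbP'))
  have ha2 : 2 ≤ a := hP2 a haP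
  have hb3 : 3 ≤ b := by omega
  have haR : (2 : ℝ) ≤ a := by exact_mod_cast ha2
  have hbR : (3 : ℝ) ≤ b := by exact_mod_cast hb3
  have habR : (a : ℝ) < b := by exact_mod_cast hab
  have hna : n ^ 2 ≤ a := hPn a haP
  have hnb : n ^ 2 ≤ b := by omega
  have hnbR : (n : ℝ) ^ 2 ≤ b := by exact_mod_cast hnb
  set P1 := P'.filter (fun x : ℤ => (x : ℝ) < (b : ℝ) ^ (2 ^ 7)) with hP1
  set P2 := P'.filter (fun x : ℤ => ¬ (x : ℝ) < (b : ℝ) ^ (2 ^ 7)) with hP2'
  have hc : P'.card = P1.card + P2.card :=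
    (Finset.card_filter_add_card_filter_not (s := P') (fun x : ℤ => (x : ℝ) < (b : ℝ) ^ (2 ^ 7))).symm
  have hP1P : ∀ x ∈ P1, x ∈ P := fun x hx => Finset.mem_of_mem_erase (Finset.mem_filter.mp hx).1
  have hP2P : ∀ x ∈ P2, x ∈ P := fun x hx => Finset.mem_of_mem_erase (Finset.mem_filter.mp hx).1
  have c1 : P1.card ≤ 48 * 7 := by
    refine doubling n hn b (by linarith) hnbR 7 P1 ?_ ?_ ?_
    · intro x hx
      exact_mod_cast hbmin x (Finset.mem_filter.mp hx).1
    · intro x hx; exact (Finset.mem_filter.mp hx).2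
    · intro x hx y hy hxy
      exact hsq x (hP1P x hx) y (hP1P y hy) hxy
  have c2 : P2.card ≤ 48 * 5 := by
    rcases P2.eq_empty_or_nonempty with h | hne2
    · simp [h]
    set c := P2.min' hne2 with hcdef
    have hcP2 : c ∈ P2 := P2.min'_mem hne2
    have hcP : c ∈ P := hP2P c hcP2
    have hcmin : ∀ x ∈ P2, c ≤ x := fun x hx => P2.min'_le x hx
    have hbc128 : (b : ℝ) ^ 128 ≤ c := by
      have := (Finset.mem_filter.mp hcP2).2
      norm_num at this
      exact this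
    have hbcR : (b : ℝ) < c := by
      calc (b : ℝ) = (b : ℝ) ^ 1 := (pow_one _).symm
        _ < (b : ℝ) ^ 128 := pow_lt_pow_right₀ (by linarith) (by norm_num)
        _ ≤ c := hbc128
    have hbc : b < c := by exact_mod_cast hbcR
    have hcR : (3 : ℝ) < c := by linarith
    refine doubling n hn c (by linarith) (by linarith) 5 P2 ?_ ?_ ?_
    · intro x hx; exact_mod_cast hcmin x hx
    · intro d hd
      have hdP := hP2P d hd
      rcases eq_or_lt_of_le (hcmin d hd) with h | hcd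
      · rw [← h]
        calc (c : ℝ) = (c : ℝ) ^ 1 := (pow_one _).symm
          _ < (c : ℝ) ^ (2 ^ 5) := pow_lt_pow_right₀ (by linarith) (by norm_num)
      · -- gap principle
        have habc : (0 : ℝ) < a * b * c := by positivity
        set Y : ℝ := Real.sqrt (Real.sqrt (a * b * c)) with hY
        have hYpos : 0 < Y := Real.sqrt_pos.mpr (Real.sqrt_pos.mpr habc)
        have hY4 : Y ^ 4 = a * b * c := by
          have : Y ^ 4 = (Y ^ 2) ^ 2 := by ring
          rw [this, hY, Real.sq_sqrt (Real.sqrt_nonneg _), Real.sq_sqrt habc.le]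
        have hnabs : |(n : ℝ)| ≤ b := by
          have h1 : (1 : ℝ) ≤ |(n : ℝ)| := by
            have : (1 : ℤ) ≤ |n| := Int.one_le_abs hn
            exact_mod_cast this
          have h2 : |(n : ℝ)| ^ 2 ≤ b := by rwa [sq_abs]
          nlinarith
        have hY512 : 512 * ((|n| : ℤ) * b : ℝ) ^ 9 ≤ Y := by
          have hcast : ((|n| : ℤ) : ℝ) = |(n : ℝ)| := by push_cast; rfl
          rw [hcast]
          have e1 : |(n : ℝ)| * b ≤ b * b := mul_le_mul_of_nonneg_right hnabs (by linarith)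
          have e2 : (|(n : ℝ)| * b) ^ 9 ≤ (b * b : ℝ) ^ 9 := pow_le_pow_left₀ (by positivity) e1 9
          have e3 : (512 : ℝ) ≤ (b : ℝ) ^ 9 := by
            calc (512 : ℝ) = 2 ^ 9 := by norm_num
              _ ≤ (b : ℝ) ^ 9 := pow_le_pow_left₀ (by norm_num) (by linarith) 9
          have e4 : 512 * (|(n : ℝ)| * b) ^ 9 ≤ (b : ℝ) ^ 27 := by
            calc 512 * (|(n : ℝ)| * b) ^ 9 ≤ (b : ℝ) ^ 9 * (b * b : ℝ) ^ 9 :=
                  mul_le_mul e3 e2 (by positivity) (by positivity)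
              _ = (b : ℝ) ^ 27 := by ring
          refine le_trans e4 ?_
          have e5 : ((b : ℝ) ^ 27) ^ 4 ≤ Y ^ 4 := by
            rw [hY4, ← pow_mul]
            have e6 : (b : ℝ) ^ (27 * 4) ≤ (b : ℝ) ^ 128 :=
              pow_le_pow_right₀ (by linarith) (by norm_num)
            have e7 : (1 : ℝ) * c ≤ a * b * c := by
              refine mul_le_mul_of_nonneg_right ?_ (by linarith)
              nlinarith
            linarith
          exact le_of_pow_le_pow_left₀ (by norm_num) hYpos.le e5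
        have hY1 : 1 ≤ Y := by
          refine le_trans ?_ hY512
          have : (1 : ℝ) ≤ ((|n| : ℤ) * b : ℝ) ^ 9 := by
            apply one_le_pow₀
            have h1 : (1 : ℝ) ≤ ((|n| : ℤ) : ℝ) := by
              have : (1 : ℤ) ≤ |n| := Int.one_le_abs hn
              exact_mod_cast this
            nlinarith
          linarith
        have hg := Pade.gap n a b c d hn (by omega) hab hbc hcd
          (hsq a haP c hcP (by omega)) (hsq b hbP c hcP (by omega))
          (hsq a haP d hdP (by omega)) (hsq b hbP d hdP (by omega))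
          (hsq c hcP d hdP (by omega)) Y hYpos hY4 hY512
        have f1 : Y ^ 114 ≤ (a * b * c : ℝ) ^ 29 := by
          rw [← hY4, ← pow_mul]
          exact pow_le_pow_right₀ hY1 (by norm_num)
        have f2 : (a * b * c : ℝ) ^ 29 ≤ (c : ℝ) ^ 30 := by
          have g1 : (a * b : ℝ) ≤ b * b := mul_le_mul_of_nonneg_right habR.le (by linarith)
          have g2 : (a * b : ℝ) ^ 29 ≤ (b * b : ℝ) ^ 29 := pow_le_pow_left₀ (by positivity) g1 29
          have g3 : (b * b : ℝ) ^ 29 = (b : ℝ) ^ 58 := by ring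
          have g4 : (b : ℝ) ^ 58 ≤ (b : ℝ) ^ 128 := pow_le_pow_right₀ (by linarith) (by norm_num)
          have g5 : (a * b : ℝ) ^ 29 ≤ c := by linarith
          calc (a * b * c : ℝ) ^ 29 = (a * b : ℝ) ^ 29 * (c : ℝ) ^ 29 := by rw [mul_pow]
            _ ≤ (c : ℝ) * (c : ℝ) ^ 29 := mul_le_mul_of_nonneg_right g5 (by positivity)
            _ = (c : ℝ) ^ 30 := by ring
        have f3 : (c : ℝ) ^ 30 < (c : ℝ) ^ (2 ^ 5) := pow_lt_pow_right₀ (by linarith) (by norm_num)
        linarith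
    · intro x hx y hy hxy
      exact hsq x (hP2P x hx) y (hP2P y hy) hxy
  omega

end Pool.Agent.Helper15
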