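import Pool.Agent.Helper15.Small

set_option autoImplicit false

namespace Pool.Agent.Helper15.Pade

open PowerSeries Finset
open scoped Polynomial

/-- The integers as a subring of the reals. -/
def Zr : Subring ℝ := (Int.castRingHom ℝ).range

theorem mem_Zr (x : ℝ) : x ∈ Zr ↔ ∃ z : ℤ, (z : ℝ) = x := by
  rw [Zr, RingHom.mem_range]
  simp

theorem int_mem (z : ℤ) : (z : ℝ) ∈ Zr := (mem_Zr _).2 ⟨z, rfl⟩

theorem nat_mem (z : ℕ) : (z : ℝ) ∈ Zr := (mem_Zr _).2 ⟨z, by simp⟩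

theorem choose_neg_half (l : ℕ) :
    4 ^ l * Ring.choose (-1 / 2 : ℝ) l = (-1) ^ l * (Nat.centralBinom l : ℝ) := by
  induction l with
  | zero => simp
  | succ n ih =>
    have h1 := choose_rec (-1 / 2 : ℝ) n
    have h2 : ((n : ℝ) + 1) * (Nat.centralBinom (n + 1) : ℝ) = 2 * (2 * n + 1) * (Nat.centralBinom n : ℝ) := by
      exact_mod_cast Nat.succ_mul_centralBinom_succ n
    have hn : ((n : ℝ) + 1) ≠ 0 := by positivity
    apply mul_left_cancel₀ hn
    calc ((n : ℝ) + 1) * (4 ^ (n + 1) * Ring.choose (-1 / 2 : ℝ) (n + 1))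
        = 4 ^ (n + 1) * (((n : ℝ) + 1) * Ring.choose (-1 / 2 : ℝ) (n + 1)) := by ring
      _ = 4 ^ (n + 1) * ((-1 / 2 - n) * Ring.choose (-1 / 2 : ℝ) n) := by rw [h1]
      _ = (-2 * (2 * n + 1)) * (4 ^ n * Ring.choose (-1 / 2 : ℝ) n) := by rw [pow_succ]; ring
      _ = (-2 * (2 * n + 1)) * ((-1) ^ n * (Nat.centralBinom n : ℝ)) := by rw [ih]
      _ = (-1) ^ (n + 1) * (2 * (2 * n + 1) * (Nat.centralBinom n : ℝ)) := by rw [pow_succ]; ring
      _ = (-1) ^ (n + 1) * (((n : ℝ) + 1) * (Nat.centralBinom (n + 1) : ℝ)) := by rw [h2]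
      _ = _ := by ring

theorem choose_int (k l : ℕ) : 4 ^ l * Ring.choose ((k : ℝ) + 1 / 2) l ∈ Zr := by
  have h4 : (4 : ℝ) ∈ Zr := by exact_mod_cast nat_mem 4
  have step : ∀ r : ℝ, (∀ l : ℕ, 4 ^ l * Ring.choose r l ∈ Zr) →
      ∀ l : ℕ, 4 ^ l * Ring.choose (r + 1) l ∈ Zr := by
    intro r hr l
    cases l with
    | zero => simpa using Zr.one_mem
    | succ l =>
      rw [Ring.choose_succ_succ]
      have : 4 ^ (l + 1) * (Ring.choose r l + Ring.choose r (l + 1)) =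
          4 * (4 ^ l * Ring.choose r l) + 4 ^ (l + 1) * Ring.choose r (l + 1) := by ring
      rw [this]
      exact Zr.add_mem (Zr.mul_mem h4 (hr l)) (hr (l + 1))
  have base : ∀ l : ℕ, 4 ^ l * Ring.choose (-1 / 2 : ℝ) l ∈ Zr := by
    intro l
    rw [choose_neg_half]
    have : ((-1) ^ l * (Nat.centralBinom l : ℝ)) = (((-1) ^ l * (Nat.centralBinom l : ℤ) : ℤ) : ℝ) := by
      push_cast; ring
    rw [this]
    exact int_mem _
  have all : ∀ k : ℕ, ∀ l : ℕ, 4 ^ l * Ring.choose (-1 / 2 + ((k : ℝ) + 1)) l ∈ Zr := by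
    intro k
    induction k with
    | zero =>
      intro l
      have := step _ base l
      simpa using this
    | succ k ih =>
      intro l
      have := step _ ih l
      have e : (-1 / 2 + ((k : ℝ) + 1)) + 1 = -1 / 2 + (((k + 1 : ℕ) : ℝ) + 1) := by push_cast; ring
      rwa [e] at this
  have := all k l
  have e : (-1 / 2 : ℝ) + ((k : ℝ) + 1) = (k : ℝ) + 1 / 2 := by ring
  rwa [e] at this

def Good (K : ℕ) (c s : ℝ) (F : ℝ⟦X⟧) : Prop := ∀ m ≤ K, c * s ^ m * coeff m F ∈ Zr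

theorem Good.mul {K : ℕ} {c c' s : ℝ} {F F' : ℝ⟦X⟧} (h : Good K c s F) (h' : Good K c' s F') :
    Good K (c * c') s (F * F') := by
  intro m hm
  rw [coeff_mul, Finset.mul_sum]
  refine Zr.sum_mem (fun p hp => ?_)
  have hpm : p.1 + p.2 = m := HasAntidiagonal.mem_antidiagonal.1 hp
  have : c * c' * s ^ m * (coeff p.1 F * coeff p.2 F') =
      (c * s ^ p.1 * coeff p.1 F) * (c' * s ^ p.2 * coeff p.2 F') := by
    rw [← hpm, pow_add]; ring
  rw [this]
  exact Zr.mul_mem (h p.1 (by omega)) (h' p.2 (by omega))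

theorem Good.one (K : ℕ) (s : ℝ) : Good K 1 s 1 := by
  intro m _
  rw [coeff_one]
  split_ifs with h
  · subst h; simpa using Zr.one_mem
  · simpa using Zr.zero_mem

theorem Good.pow {K : ℕ} {c s : ℝ} {F : ℝ⟦X⟧} (h : Good K c s F) (n : ℕ) :
    Good K (c ^ n) s (F ^ n) := by
  induction n with
  | zero => simpa using Good.one K s
  | succ n ih => rw [pow_succ, pow_succ]; exact ih.mul h

theorem Good.scale {K : ℕ} {c s t : ℝ} {F : ℝ⟦X⟧} (h : Good K c s F) (ht : t ∈ Zr) :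
    Good K c (s * t) F := by
  intro m hm
  have : c * (s * t) ^ m * coeff m F = t ^ m * (c * s ^ m * coeff m F) := by rw [mul_pow]; ring
  rw [this]
  exact Zr.mul_mem (Zr.pow_mem ht m) (h m hm)

theorem Good.cscale {K : ℕ} {c s t : ℝ} {F : ℝ⟦X⟧} (h : Good K c s F) (ht : t ∈ Zr) :
    Good K (c * t) s F := by
  intro m hm
  have : c * t * s ^ m * coeff m F = t * (c * s ^ m * coeff m F) := by ring
  rw [this]
  exact Zr.mul_mem ht (h m hm)

theorem good_U (K : ℕ) (δ : ℝ) (hδ : δ ≠ 0) : Good K δ δ (U δ) := by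
  intro m _
  rw [U, coeff_mk]
  have : δ * δ ^ m * ((-1) ^ m * δ⁻¹ ^ (m + 1)) = (-1) ^ m := by
    rw [inv_pow, pow_succ]
    field_simp
  rw [this]
  exact Zr.pow_mem (Zr.neg_mem Zr.one_mem) m

theorem good_X_add_C (K : ℕ) (α s : ℝ) (hα : α ∈ Zr) (hs : s ∈ Zr) :
    Good K 1 s (X + C α) := by
  intro m _
  rw [map_add, coeff_X, coeff_C]
  rcases m with _ | _ | m
  · simpa using hα
  · simpa using hs
  · simpa using Zr.zero_mem

theorem good_G (k : ℕ) (N : ℕ) (hN : 0 < N) (α : ℤ) (hα : (N : ℝ) + α ≠ 0) :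
    Good k ((N : ℝ) ^ k) 4 (G k (1 / N) α) := by
  intro m hm
  have hN' : (N : ℝ) ≠ 0 := by positivity
  rw [G, coeff_mk]
  have e1 : (1 + (α : ℝ) * (1 / N)) = ((N : ℝ) + α) / N := by field_simp
  have e2 : (1 / (N : ℝ)) / (((N : ℝ) + α) / N) = 1 / ((N : ℝ) + α) := by field_simp
  rw [e1, e2]
  obtain ⟨t, rfl⟩ := Nat.exists_eq_add_of_le hm
  have e3 : (N : ℝ) ^ (m + t) * 4 ^ m * ((((N : ℝ) + α) / N) ^ (m + t) *
      (Ring.choose (((m + t : ℕ) : ℝ) + 1 / 2) m * (1 / ((N : ℝ) + α)) ^ m))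
      = ((N : ℝ) + α) ^ t * (4 ^ m * Ring.choose (((m + t : ℕ) : ℝ) + 1 / 2) m) := by
    generalize Ring.choose (((m + t : ℕ) : ℝ) + 1 / 2) m = c
    rw [div_pow, one_div, inv_pow, pow_add, pow_add]
    field_simp
  rw [e3]
  exact Zr.mul_mem (Zr.pow_mem (Zr.add_mem (nat_mem N) (int_mem α)) t) (choose_int _ _)

/-- Integrality of the (scaled) coefficients. -/
theorem psi_int (α : Fin 3 → ℤ) (hα : Function.Injective α) (k r N : ℕ) (hN : 0 < N)
    (hNα : ∀ j, (N : ℝ) + α j ≠ 0) (Δ : ℤ)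
    (hΔ : ∀ j, ∃ t : ℤ, (∏ h ∈ univ.erase j, (α j - α h)) * t = Δ) (j : Fin 3) :
    ∃ w : ℤ, (w : ℝ) = (N : ℝ) ^ k * (Δ : ℝ) ^ (k + 1) * (4 * (Δ : ℝ)) ^ k *
      psi (fun i => (α i : ℝ)) k (1 / N) j (Polynomial.X ^ r) := by
  set a : Fin 3 → ℝ := fun i => (α i : ℝ) with ha
  have h4 : (4 : ℝ) ∈ Zr := by exact_mod_cast nat_mem 4
  have hΔZ : (Δ : ℝ) ∈ Zr := int_mem Δ
  have hsZ : 4 * (Δ : ℝ) ∈ Zr := Zr.mul_mem h4 hΔZ
  obtain ⟨t, ht⟩ := hΔ j
  -- each difference divides Δ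
  have hdiv : ∀ h ∈ univ.erase j, ∃ u : ℤ, (α j - α h) * u = Δ := by
    intro h hh
    refine ⟨(∏ h' ∈ (univ.erase j).erase h, (α j - α h')) * t, ?_⟩
    rw [← ht, ← Finset.mul_prod_erase _ _ hh]
    ring
  have hU : ∀ h ∈ univ.erase j, Good k (a j - a h) (4 * (Δ : ℝ)) (U (a j - a h)) := by
    intro h hh
    obtain ⟨u, hu⟩ := hdiv h hh
    have hne : a j - a h ≠ 0 := by
      rw [sub_ne_zero]
      intro e
      have e' : ((α h : ℤ) : ℝ) = (α j : ℝ) := e.symm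
      exact (Finset.mem_erase.1 hh).1 (hα (by exact_mod_cast e'))
    have h1 := (good_U k (a j - a h) hne).scale (t := 4 * u) (Zr.mul_mem h4 (int_mem u))
    have : (a j - a h) * (4 * (u : ℝ)) = 4 * (Δ : ℝ) := by
      have : ((α j - α h : ℤ) : ℝ) * u = Δ := by exact_mod_cast hu
      push_cast at this
      rw [ha]
      simp only
      linear_combination 4 * this
    rwa [this] at h1
  have hUU : Good k (∏ h ∈ univ.erase j, (a j - a h)) (4 * (Δ : ℝ)) (UU a j) := by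
    rw [UU]
    have : ∀ s ⊆ univ.erase j, Good k (∏ h ∈ s, (a j - a h)) (4 * (Δ : ℝ)) (∏ h ∈ s, U (a j - a h)) := by
      intro s
      induction s using Finset.induction_on with
      | empty => intro _; simpa using Good.one k _
      | insert b s hb ih =>
        intro hs
        rw [Finset.prod_insert hb, Finset.prod_insert hb]
        exact (hU b (hs (by simp))).mul (ih (fun x hx => hs (by simp [hx])))
    exact this _ (Finset.Subset.refl _)
  have hUUp : Good k ((Δ : ℝ) ^ (k + 1)) (4 * (Δ : ℝ)) (UU a j ^ (k + 1)) := by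
    have h1 : Good k ((∏ h ∈ univ.erase j, (a j - a h)) * (t : ℝ)) (4 * (Δ : ℝ)) (UU a j) :=
      hUU.cscale (int_mem t)
    have h2 : (∏ h ∈ univ.erase j, (a j - a h)) * (t : ℝ) = (Δ : ℝ) := by
      rw [← ht]; push_cast; rfl
    rw [h2] at h1
    exact h1.pow (k + 1)
  have hG : Good k ((N : ℝ) ^ k) (4 * (Δ : ℝ)) (G k (1 / N) (a j)) :=
    (good_G k N hN (α j) (hNα j)).scale hΔZ
  have hS : Good k 1 (4 * (Δ : ℝ)) (sh (a j) (Polynomial.X ^ r)) := by
    rw [map_pow, sh_X]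
    have := (good_X_add_C k (a j) (4 * (Δ : ℝ)) (int_mem _) hsZ).pow r
    rwa [one_pow] at this
  have hall := ((hG.mul hS).mul hUUp) k le_rfl
  rw [mul_one] at hall
  rw [psi_apply]
  exact (mem_Zr _).1 hall

end Pool.Agent.Helper15.Pade
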