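import Pool.Agent.Helper15.Gap

set_option autoImplicit false

namespace Pool.Agent.Helper15.Pade

open Finset
open scoped Polynomial

/-- Lower bound for an integer combination of the Padé forms, from nonvanishing and
integrality. -/
theorem lower (α : Fin 3 → ℤ) (hα : Function.Injective α) (k N : ℕ) (hN : 0 < N)
    (hNα : ∀ j, (N : ℝ) + α j ≠ 0) (Δ : ℤ)
    (hΔ : ∀ j, ∃ t : ℤ, (∏ h ∈ univ.erase j, (α j - α h)) * t = Δ) (hΔ0 : Δ ≠ 0)
    (v : Fin 3 → ℤ) (hv : ∃ j, v j ≠ 0) :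
    ∃ r < 3, 1 ≤ (N : ℝ) ^ k * |(Δ : ℝ)| ^ (k + 1) * (4 * |(Δ : ℝ)|) ^ k *
      |∑ j, (v j : ℝ) * psi (fun i => (α i : ℝ)) k (1 / N) j (Polynomial.X ^ r)| := by
  have hNpos : (0 : ℝ) < N := by exact_mod_cast hN
  have hinj' : Function.Injective (fun i => (α i : ℝ)) := by
    intro i j hij
    apply hα
    have : ((α i : ℤ) : ℝ) = ((α j : ℤ) : ℝ) := hij
    exact_mod_cast this
  have hne0 : ∀ j, 1 + (α j : ℝ) * (1 / (N : ℝ)) ≠ 0 := by
    intro j h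
    apply hNα j
    have h2 : (1 + (α j : ℝ) * (1 / (N : ℝ))) * N = N + α j := by field_simp
    rw [h] at h2
    linarith
  have hex : ∃ r < 3, ∑ j, (v j : ℝ) *
      psi (fun i => (α i : ℝ)) k (1 / N) j (Polynomial.X ^ r) ≠ 0 := by
    by_contra hcon
    push Not at hcon
    have := nonvanish (fun i => (α i : ℝ)) hinj' k (1 / (N : ℝ)) (by positivity) hne0
      (fun j => (v j : ℝ)) hcon
    obtain ⟨j, hj⟩ := hv
    exact hj (by exact_mod_cast this j)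
  obtain ⟨r, hr, hne⟩ := hex
  refine ⟨r, hr, ?_⟩
  choose w hw using fun j => psi_int α hα k r N hN hNα Δ hΔ j
  set S := ∑ j, (v j : ℝ) * psi (fun i => (α i : ℝ)) k (1 / N) j (Polynomial.X ^ r) with hS
  have hsum : ((∑ j, v j * w j : ℤ) : ℝ) =
      (N : ℝ) ^ k * (Δ : ℝ) ^ (k + 1) * (4 * (Δ : ℝ)) ^ k * S := by
    push_cast
    rw [hS, mul_sum]
    refine sum_congr rfl fun j _ => ?_
    rw [hw j]; ring
  have hΔR : (Δ : ℝ) ≠ 0 := by exact_mod_cast hΔ0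
  have hne2 : (∑ j, v j * w j : ℤ) ≠ 0 := by
    intro h
    rw [h] at hsum
    have : (N : ℝ) ^ k * (Δ : ℝ) ^ (k + 1) * (4 * (Δ : ℝ)) ^ k * S ≠ 0 := by positivity
    exact this (by rw [← hsum]; simp)
  have h1 : (1 : ℝ) ≤ |((∑ j, v j * w j : ℤ) : ℝ)| := by
    have : (1 : ℤ) ≤ |∑ j, v j * w j| := Int.one_le_abs hne2
    exact_mod_cast this
  rw [hsum] at h1
  rw [abs_mul, abs_mul, abs_mul, abs_pow, abs_pow, abs_pow, abs_mul, abs_of_pos hNpos,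
    abs_of_pos (show (0 : ℝ) < 4 by norm_num)] at h1
  exact h1

/-- The final numerical contradiction. -/
theorem contra (M Y D sc q : ℝ) (hM1 : 1 ≤ M) (hYM : 512 * M ^ 9 ≤ Y) (hD : Y ^ 57 < D)
    (hq0 : 0 ≤ q) (hq : q ≤ 2 * Y ^ 4 * D) (hsc : sc ≤ Y ^ 4)
    (main : ∀ k : ℕ, ∃ r mult F F' E, r ≤ 2 ∧ 0 ≤ F ∧ 0 ≤ F' ∧ 0 ≤ E ∧ 0 ≤ mult ∧
      mult ≤ (Y ^ 4) ^ k * 4 ^ k * (M ^ 3) ^ (2 * k + 1) ∧
      F ≤ 24 * 16 ^ k * (M + 1) ^ (3 * k + 2) * (1 / Y ^ 4) ^ (3 * k + 2 - r) ∧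
      F' ≤ 8 * 32 ^ k * (M + 1) ^ 2 ∧ E * D ≤ 2 * M * sc ∧
      1 ≤ mult * (q * F) + mult * (2 * E * F')) : False := by
  have hM9 : 1 ≤ M ^ 9 := one_le_pow₀ hM1
  have hY512 : 512 ≤ Y := by linarith
  have hY1 : 1 < Y := by linarith
  have hY0 : 0 < Y := by linarith
  have hDpos : 0 < D := lt_trans (by positivity) hD
  have h7 : 1 < Y ^ 7 := one_lt_pow₀ hY1 (by norm_num)
  have hx1 : 1 ≤ D / Y ^ 57 := by rw [le_div_iff₀ (by positivity)]; linarith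
  obtain ⟨i, hi1, hi2⟩ := exists_nat_pow_near hx1 h7
  rw [le_div_iff₀ (by positivity)] at hi1
  rw [div_lt_iff₀ (by positivity)] at hi2
  obtain ⟨r, mult, F, F', E, hr, hF0, hF'0, hE0, hm0, hm, hF, hF', hE, h1⟩ := main (10 + i)
  have n1 := num1 (10 + i) M Y D mult q F (1 / Y ^ 4) r hr hM1 hYM rfl hDpos hm hq0 hq hF0 hF
  have n2 := num2 (10 + i) M Y D mult E F' sc hM1 hYM hDpos hm hsc hE0 hE hF'0 hF'
  -- first term ≤ 1/512
  have e1 : Y * (mult * (q * F)) ≤ 1 := by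
    have hP : 0 < Y ^ (69 + 7 * i) := by positivity
    have h2 : Y ^ 5 * D ≤ Y ^ (69 + 7 * i) := by
      have : D ≤ (Y ^ 7) ^ (i + 1) * Y ^ 57 := hi2.le
      calc Y ^ 5 * D ≤ Y ^ 5 * ((Y ^ 7) ^ (i + 1) * Y ^ 57) :=
            mul_le_mul_of_nonneg_left this (by positivity)
        _ = Y ^ (69 + 7 * i) := by rw [← pow_mul]; ring
    have h3 : mult * (q * F) * Y ^ (7 * (10 + i)) = (Y * (mult * (q * F))) * Y ^ (69 + 7 * i) := by
      have : 7 * (10 + i) = (69 + 7 * i) + 1 := by ring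
      rw [this, pow_succ]; ring
    rw [h3] at n1
    have h4 : (Y * (mult * (q * F))) * Y ^ (69 + 7 * i) ≤ 1 * Y ^ (69 + 7 * i) := by
      rw [one_mul]; exact le_trans n1 h2
    exact le_of_mul_le_mul_right h4 hP
  have e2 : Y * (mult * (2 * E * F')) ≤ 1 := by
    have h2 : Y ^ (5 * (10 + i) + 5) * Y ≤ D := by
      calc Y ^ (5 * (10 + i) + 5) * Y = Y ^ (56 + 5 * i) := by ring
        _ ≤ Y ^ (57 + 7 * i) := pow_le_pow_right₀ hY1.le (by omega)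
        _ = (Y ^ 7) ^ i * Y ^ 57 := by rw [← pow_mul]; ring
        _ ≤ D := hi1
    have h3 : (Y * (mult * (2 * E * F'))) * D ≤ 1 * D := by
      calc (Y * (mult * (2 * E * F'))) * D = (mult * (2 * E * F') * D) * Y := by ring
        _ ≤ Y ^ (5 * (10 + i) + 5) * Y := mul_le_mul_of_nonneg_right n2 hY0.le
        _ ≤ D := h2
        _ = 1 * D := (one_mul D).symm
    exact le_of_mul_le_mul_right h3 hDpos
  have h5 : Y * 1 ≤ Y * (mult * (q * F) + mult * (2 * E * F')) :=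
    mul_le_mul_of_nonneg_left h1 hY0.le
  nlinarith

end Pool.Agent.Helper15.Pade
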