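import Pool.Agent.Helper15.Pade

set_option autoImplicit false

namespace Pool.Agent.Helper15.Pade

open PowerSeries Finset
open scoped Polynomial

variable (a : Fin 3 → ℝ)

theorem AA_expand : ∃ e1 e2 e3 : ℝ, AA a = Polynomial.X ^ 3 + Polynomial.C e1 * Polynomial.X ^ 2
    + Polynomial.C e2 * Polynomial.X + Polynomial.C e3 := by
  refine ⟨-(a 0 + a 1 + a 2), a 0 * a 1 + a 0 * a 2 + a 1 * a 2, -(a 0 * a 1 * a 2), ?_⟩
  rw [AA, Fin.prod_univ_three]
  simp only [Polynomial.C_neg, Polynomial.C_add, Polynomial.C_mul]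
  ring

theorem lin_C_mul (Ψ : ℝ[X] →ₗ[ℝ] ℝ) (c : ℝ) (P : ℝ[X]) : Ψ (Polynomial.C c * P) = c * Ψ P := by
  rw [← Polynomial.smul_eq_C_mul, map_smul, smul_eq_mul]

/-- A functional killing all `Dop R` and the polynomials of degree at most two is zero. -/
theorem zero_of_kill (k : ℕ) (x : ℝ) (hx : x ≠ 0) (Ψ : ℝ[X] →ₗ[ℝ] ℝ)
    (hD : ∀ R, Ψ (Dop a k x R) = 0) (h0 : ∀ r < 3, Ψ (Polynomial.X ^ r) = 0) :
    ∀ m : ℕ, Ψ (Polynomial.X ^ m) = 0 := by
  obtain ⟨e1, e2, e3, hA⟩ := AA_expand a
  have hA' : Polynomial.derivative (AA a) = Polynomial.C 3 * Polynomial.X ^ 2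
      + Polynomial.C (2 * e1) * Polynomial.X + Polynomial.C e2 := by
    rw [hA]
    simp only [Polynomial.derivative_add, Polynomial.derivative_X_pow, Polynomial.derivative_mul,
      Polynomial.derivative_C, Polynomial.derivative_X, Polynomial.C_mul]
    norm_num
    ring
  intro m
  induction m using Nat.strong_induction_on with
  | _ m ih =>
    rcases lt_or_ge m 3 with hm | hm
    · exact h0 m hm
    · rcases Nat.eq_or_lt_of_le hm with hm3 | hm3
      · -- m = 3
        subst hm3
        have h := hD 1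
        have hexp : Dop a k x 1 = Polynomial.C (x * (3 / 2 - 2 * k)) * Polynomial.X ^ 3
            + Polynomial.C (((k : ℝ) + 3 / 2) * x * e1 - k * 3 - x * k * (2 * e1)) * Polynomial.X ^ 2
            + Polynomial.C (((k : ℝ) + 3 / 2) * x * e2 - k * (2 * e1) - x * k * e2) * Polynomial.X ^ 1
            + Polynomial.C (((k : ℝ) + 3 / 2) * x * e3 - k * e2) * Polynomial.X ^ 0 := by
          rw [Dop, hA', hA]
          simp only [Polynomial.derivative_one, map_mul, map_sub, map_add, map_natCast]
          have e32 : (Polynomial.C (3 / 2 : ℝ)) = Polynomial.C (3 : ℝ) * Polynomial.C (1 / 2 : ℝ) := by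
            rw [← Polynomial.C_mul]; norm_num
          have e2' : (Polynomial.C (2 : ℝ) : ℝ[X]) = 2 := map_ofNat Polynomial.C 2
          have e3' : (Polynomial.C (3 : ℝ) : ℝ[X]) = 3 := map_ofNat Polynomial.C 3
          rw [e2', e3']
          ring
        rw [hexp, map_add, map_add, map_add, lin_C_mul, lin_C_mul, lin_C_mul, lin_C_mul,
          ih 2 (by norm_num), ih 1 (by norm_num), ih 0 (by norm_num)] at h
        simp only [mul_zero, add_zero] at h
        rcases mul_eq_zero.1 h with h | h
        · exfalso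
          rcases mul_eq_zero.1 h with h | h
          · exact hx h
          · have h1 : (3 : ℝ) = 4 * k := by linarith
            have h2 : (3 : ℕ) = 4 * k := by exact_mod_cast h1
            omega
        · exact h
      · obtain ⟨q, rfl⟩ : ∃ q, m = q + 4 := ⟨m - 4, by omega⟩
        have h := hD (Polynomial.X ^ (q + 1))
        have hexp : Dop a k x (Polynomial.X ^ (q + 1)) =
            Polynomial.C (x * (q + 5 / 2 - 2 * k)) * Polynomial.X ^ (q + 4)
            + Polynomial.C (((k : ℝ) + 3 / 2) * x * e1 + (q + 1 - 3 * k) + x * (q + 1 - 2 * k) * e1)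
              * Polynomial.X ^ (q + 3)
            + Polynomial.C (((k : ℝ) + 3 / 2) * x * e2 + (q + 1 - 2 * k) * e1 + x * (q + 1 - k) * e2)
              * Polynomial.X ^ (q + 2)
            + Polynomial.C (((k : ℝ) + 3 / 2) * x * e3 + (q + 1 - k) * e2 + x * (q + 1) * e3)
              * Polynomial.X ^ (q + 1)
            + Polynomial.C ((q + 1) * e3) * Polynomial.X ^ q := by
          rw [Dop, hA', hA]
          simp only [Polynomial.derivative_X_pow, map_mul, map_sub, map_add, map_natCast,
            Nat.add_sub_cancel, map_one]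
          have e52 : (Polynomial.C (5 / 2 : ℝ) : ℝ[X]) = Polynomial.C (3 / 2 : ℝ) + 1 := by
            rw [← Polynomial.C_1, ← Polynomial.C_add]; norm_num
          have e2' : (Polynomial.C (2 : ℝ) : ℝ[X]) = 2 := map_ofNat Polynomial.C 2
          have e3' : (Polynomial.C (3 : ℝ) : ℝ[X]) = 3 := map_ofNat Polynomial.C 3
          rw [e52, e2', e3']
          push_cast
          ring
        rw [hexp, map_add, map_add, map_add, map_add, lin_C_mul, lin_C_mul, lin_C_mul, lin_C_mul,
          lin_C_mul, ih (q + 3) (by omega), ih (q + 2) (by omega), ih (q + 1) (by omega),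
          ih q (by omega)] at h
        simp only [mul_zero, add_zero] at h
        rcases mul_eq_zero.1 h with h | h
        · exfalso
          rcases mul_eq_zero.1 h with h | h
          · exact hx h
          · have h1 : 2 * (q : ℝ) + 5 = 4 * k := by linarith
            have h2 : 2 * q + 5 = 4 * k := by exact_mod_cast h1
            omega
        · exact h

theorem lin_zero (Ψ : ℝ[X] →ₗ[ℝ] ℝ) (h : ∀ m : ℕ, Ψ (Polynomial.X ^ m) = 0) (Q : ℝ[X]) :
    Ψ Q = 0 := by
  induction Q using Polynomial.induction_on' with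
  | add p q hp hq => rw [map_add, hp, hq, add_zero]
  | monomial n c =>
    rw [← Polynomial.C_mul_X_pow_eq_monomial, lin_C_mul, h, mul_zero]

/-- The three residue vectors are linearly independent. -/
theorem nonvanish (ha : Function.Injective a) (k : ℕ) (x : ℝ) (hx : x ≠ 0)
    (h1 : ∀ j, 1 + a j * x ≠ 0) (v : Fin 3 → ℝ)
    (hv : ∀ r < 3, ∑ j, v j * psi a k x j (Polynomial.X ^ r) = 0) : ∀ j, v j = 0 := by
  set Ψ : ℝ[X] →ₗ[ℝ] ℝ := ∑ j, v j • psi a k x j with hΨ
  have hΨa : ∀ Q, Ψ Q = ∑ j, v j * psi a k x j Q := by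
    intro Q
    rw [hΨ]
    simp [LinearMap.sum_apply]
  have hall : ∀ Q, Ψ Q = 0 := by
    intro Q
    refine lin_zero Ψ (zero_of_kill a k x hx Ψ ?_ ?_) Q
    · intro R
      rw [hΨa]
      exact Finset.sum_eq_zero (fun j _ => by rw [psi_Dop a ha k x j (h1 j) R, mul_zero])
    · intro r hr
      rw [hΨa]
      exact hv r hr
  intro j
  set Q : ℝ[X] := (Polynomial.X - Polynomial.C (a j)) ^ k *
    ∏ h ∈ univ.erase j, (Polynomial.X - Polynomial.C (a h)) ^ (k + 1) with hQ
  have hshl : ∀ i h, sh (a i) (Polynomial.X - Polynomial.C (a h)) = X + C (a i - a h) := by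
    intro i h
    rw [map_sub, sh_X, sh_C, map_sub]; ring
  have hself : psi a k x j Q = (1 + a j * x) ^ k := by
    have e1 : sh (a j) Q = X ^ k * BB a j ^ (k + 1) := by
      rw [hQ, map_mul, map_pow, map_prod, hshl, BB, ← Finset.prod_pow]
      congr 1
      · simp
      · exact Finset.prod_congr rfl (fun h _ => by rw [map_pow, hshl])
    rw [psi_apply, e1]
    have e2 : G k x (a j) * (X ^ k * BB a j ^ (k + 1)) * UU a j ^ (k + 1)
        = X ^ k * G k x (a j) := by
      calc _ = X ^ k * G k x (a j) * (BB a j * UU a j) ^ (k + 1) := by rw [mul_pow]; ring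
        _ = _ := by rw [BB_mul_UU a ha, one_pow, mul_one]
    rw [e2, coeff_X_pow_mul', if_pos le_rfl, Nat.sub_self, G, coeff_mk]
    simp
  have hother : ∀ i, i ≠ j → psi a k x i Q = 0 := by
    intro i hi
    have e1 : ∃ F : ℝ⟦X⟧, sh (a i) Q = X ^ (k + 1) * F := by
      refine ⟨sh (a i) ((Polynomial.X - Polynomial.C (a j)) ^ k) *
        sh (a i) (∏ h ∈ (univ.erase j).erase i, (Polynomial.X - Polynomial.C (a h)) ^ (k + 1)), ?_⟩
      rw [hQ, ← Finset.mul_prod_erase (univ.erase j) _ (Finset.mem_erase.2 ⟨hi, Finset.mem_univ i⟩),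
        map_mul, map_mul, map_pow, map_pow, hshl, hshl]
      simp only [sub_self, map_zero, add_zero]
      ring
    obtain ⟨F, hF⟩ := e1
    rw [psi_apply, hF]
    have e2 : G k x (a i) * (X ^ (k + 1) * F) * UU a i ^ (k + 1)
        = X ^ (k + 1) * (G k x (a i) * F * UU a i ^ (k + 1)) := by ring
    rw [e2, coeff_X_pow_mul', if_neg (by omega)]
  have := hall Q
  rw [hΨa, Finset.sum_eq_single j (fun i _ hi => by rw [hother i hi, mul_zero])
    (fun h => absurd (Finset.mem_univ j) h), hself] at this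
  rcases mul_eq_zero.1 this with h | h
  · exact h
  · exact absurd h (pow_ne_zero _ (h1 j))

end Pool.Agent.Helper15.Pade
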