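import Mathlib

set_option autoImplicit false

namespace Pool.Agent.Helper15.Pade

open PowerSeries Finset
open scoped Polynomial

theorem choose_rec (r : ℝ) (n : ℕ) :
    ((n : ℝ) + 1) * Ring.choose r (n + 1) = (r - n) * Ring.choose r n := by
  have h := Ring.choose_smul_choose r (Nat.le_succ n)
  simp only [Nat.succ_eq_add_one, Nat.choose_succ_self_right, Nat.add_sub_cancel_left,
    Ring.choose_one_right, nsmul_eq_mul] at h
  push_cast at h
  linarith

/-- The inverse of `X + δ`. -/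
noncomputable def U (δ : ℝ) : ℝ⟦X⟧ := PowerSeries.mk (fun m => (-1) ^ m * (δ⁻¹) ^ (m + 1))

theorem U_mul (δ : ℝ) (hδ : δ ≠ 0) : (X + C δ) * U δ = 1 := by
  ext n
  cases n with
  | zero =>
    rw [add_mul, map_add, coeff_zero_X_mul, coeff_C_mul, U, coeff_mk]
    simp [hδ]
  | succ n =>
    rw [add_mul, map_add, coeff_succ_X_mul, coeff_C_mul, U, coeff_mk, coeff_mk, coeff_one]
    simp only [Nat.succ_ne_zero, if_false]
    have : δ * ((-1) ^ (n + 1) * δ⁻¹ ^ (n + 1 + 1)) = - ((-1) ^ n * δ⁻¹ ^ (n + 1)) := by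
      rw [pow_succ (δ⁻¹) (n + 1), pow_succ (-1 : ℝ) n]
      field_simp
    rw [this]; ring

/-- The expansion of `(1 + z x) ^ (k + 1/2) / (1 + α x) ^ (1/2)` at `z = α`. -/
noncomputable def G (k : ℕ) (x α : ℝ) : ℝ⟦X⟧ :=
  PowerSeries.mk (fun l => (1 + α * x) ^ k *
    (Ring.choose ((k : ℝ) + 1 / 2) l * (x / (1 + α * x)) ^ l))

theorem G_ode (k : ℕ) (x α : ℝ) (h : 1 + α * x ≠ 0) :
    (1 + C x * (X + C α)) * d⁄dX ℝ (G k x α) = C (((k : ℝ) + 1 / 2) * x) * G k x α := by
  have hL : (1 + C x * (X + C α) : ℝ⟦X⟧) = C (1 + α * x) + X * C x := by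
    rw [map_add, map_mul, map_one]; ring
  rw [hL]
  ext n
  have hr := choose_rec ((k : ℝ) + 1 / 2) n
  cases n with
  | zero =>
    simp only [Nat.cast_zero, zero_add, sub_zero] at hr
    rw [add_mul, map_add, mul_assoc, coeff_zero_X_mul, coeff_C_mul, coeff_C_mul, coeff_derivative,
      G, coeff_mk, coeff_mk]
    simp only [zero_add, Nat.cast_zero, pow_zero, pow_one, mul_one, add_zero]
    rw [one_mul] at hr
    rw [hr]
    field_simp
  | succ n =>
    rw [add_mul, map_add, mul_assoc, coeff_succ_X_mul, coeff_C_mul, coeff_C_mul, coeff_C_mul,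
      coeff_derivative, coeff_derivative, G, coeff_mk, coeff_mk]
    push_cast at hr ⊢
    have e1 : (1 + α * x) * ((1 + α * x) ^ k * (Ring.choose ((k : ℝ) + 1 / 2) (n + 1 + 1) *
        (x / (1 + α * x)) ^ (n + 1 + 1)) * ((n : ℝ) + 1 + 1))
        = (1 + α * x) ^ k * (x / (1 + α * x)) ^ (n + 1) * x *
          (((n : ℝ) + 1 + 1) * Ring.choose ((k : ℝ) + 1 / 2) (n + 1 + 1)) := by
      rw [pow_succ (x / (1 + α * x)) (n + 1)]
      field_simp
    rw [e1, hr]
    ring

/-- Shift of a polynomial, as a power series at `α`. -/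
noncomputable def sh (α : ℝ) : ℝ[X] →ₐ[ℝ] ℝ⟦X⟧ := Polynomial.aeval (X + C α)

theorem sh_X (α : ℝ) : sh α Polynomial.X = X + C α := by
  rw [sh, Polynomial.aeval_X]

theorem sh_C (α r : ℝ) : sh α (Polynomial.C r) = C r := by
  rw [sh, Polynomial.aeval_C]; rfl

theorem d_sh (α : ℝ) (R : ℝ[X]) :
    d⁄dX ℝ (sh α R) = sh α (Polynomial.derivative R) := by
  rw [sh, Derivation.map_aeval, map_add, derivative_X, derivative_C, add_zero, smul_eq_mul, mul_one]

variable (a : Fin 3 → ℝ)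

noncomputable def BB (j : Fin 3) : ℝ⟦X⟧ := ∏ h ∈ univ.erase j, (X + C (a j - a h))

noncomputable def UU (j : Fin 3) : ℝ⟦X⟧ := ∏ h ∈ univ.erase j, U (a j - a h)

theorem BB_mul_UU (ha : Function.Injective a) (j : Fin 3) : BB a j * UU a j = 1 := by
  rw [BB, UU, ← Finset.prod_mul_distrib]
  refine Finset.prod_eq_one (fun h hh => U_mul _ ?_)
  have : h ≠ j := (Finset.mem_erase.1 hh).1
  exact sub_ne_zero.2 (fun e => this (ha e).symm)

/-- The polynomial with roots `a`. -/
noncomputable def AA : ℝ[X] := ∏ h, (Polynomial.X - Polynomial.C (a h))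

theorem sh_AA (j : Fin 3) : sh (a j) (AA a) = X * BB a j := by
  have : ∀ h, sh (a j) (Polynomial.X - Polynomial.C (a h)) = X + C (a j - a h) := by
    intro h
    rw [map_sub, sh_X, sh_C, map_sub]; ring
  rw [AA, map_prod, BB, ← Finset.mul_prod_erase univ _ (Finset.mem_univ j)]
  simp only [this]
  simp

/-- The residue functional at the node `j`. -/
noncomputable def psi (k : ℕ) (x : ℝ) (j : Fin 3) : ℝ[X] →ₗ[ℝ] ℝ where
  toFun Q := coeff k (G k x (a j) * sh (a j) Q * UU a j ^ (k + 1))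
  map_add' P Q := by rw [map_add, mul_add, add_mul, map_add]
  map_smul' c Q := by
    rw [map_smul, mul_smul_comm, smul_mul_assoc, map_smul, RingHom.id_apply]

theorem psi_apply (k : ℕ) (x : ℝ) (j : Fin 3) (Q : ℝ[X]) :
    psi a k x j Q = coeff k (G k x (a j) * sh (a j) Q * UU a j ^ (k + 1)) := rfl

noncomputable def Dop (k : ℕ) (x : ℝ) (R : ℝ[X]) : ℝ[X] :=
  Polynomial.C (((k : ℝ) + 3 / 2) * x) * R * AA a + (1 + Polynomial.C x * Polynomial.X) *
    (Polynomial.derivative R * AA a - Polynomial.C (k : ℝ) * R * Polynomial.derivative (AA a))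

theorem d_UU_pow (ha : Function.Injective a) (j : Fin 3) (k : ℕ) :
    d⁄dX ℝ (UU a j ^ k) = - C (k : ℝ) * UU a j ^ k * UU a j * d⁄dX ℝ (BB a j) := by
  have h1 := BB_mul_UU a ha j
  have h2 : BB a j * d⁄dX ℝ (UU a j) + UU a j * d⁄dX ℝ (BB a j) = 0 := by
    have := congrArg (d⁄dX ℝ) h1
    rw [Derivation.leibniz, smul_eq_mul, smul_eq_mul] at this
    rw [this]
    exact derivative_one
  have h3 : d⁄dX ℝ (UU a j) = - UU a j * UU a j * d⁄dX ℝ (BB a j) := by
    linear_combination (UU a j) * h2 - d⁄dX ℝ (UU a j) * h1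
  rw [derivative_pow]
  cases k with
  | zero => simp
  | succ k =>
    rw [h3, Nat.add_sub_cancel]
    have : (C ((k + 1 : ℕ) : ℝ) : ℝ⟦X⟧) = ((k + 1 : ℕ) : ℝ⟦X⟧) := by
      simp
    rw [this]
    ring

theorem psi_Dop (ha : Function.Injective a) (k : ℕ) (x : ℝ) (j : Fin 3) (hx : 1 + a j * x ≠ 0)
    (R : ℝ[X]) : psi a k x j (Dop a k x R) = 0 := by
  set L : ℝ⟦X⟧ := 1 + C x * (X + C (a j)) with hL
  set H : ℝ⟦X⟧ := L * G k x (a j) * sh (a j) R * UU a j ^ k with hH
  have hode := G_ode k x (a j) hx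
  have hBU := BB_mul_UU a ha j
  have hsh : sh (a j) (Dop a k x R) = C (((k : ℝ) + 3 / 2) * x) * sh (a j) R * (X * BB a j)
      + L * (sh (a j) (Polynomial.derivative R) * (X * BB a j)
        - C (k : ℝ) * sh (a j) R * (BB a j + X * d⁄dX ℝ (BB a j))) := by
    have hA' : sh (a j) (Polynomial.derivative (AA a)) = BB a j + X * d⁄dX ℝ (BB a j) := by
      rw [← d_sh, sh_AA, Derivation.leibniz, derivative_X, smul_eq_mul, smul_eq_mul]
      ring
    rw [Dop, hL]
    simp only [map_add (sh (a j)), map_mul (sh (a j)), map_sub (sh (a j)), map_one (sh (a j)),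
      sh_C, sh_X, sh_AA, hA']
  have hLd : d⁄dX ℝ L = C x := by
    rw [hL, map_add, derivative_one, zero_add, Derivation.leibniz, map_add, derivative_X,
      derivative_C, derivative_C]
    simp
  have hHd : d⁄dX ℝ H = C x * G k x (a j) * sh (a j) R * UU a j ^ k
      + L * d⁄dX ℝ (G k x (a j)) * sh (a j) R * UU a j ^ k
      + L * G k x (a j) * sh (a j) (Polynomial.derivative R) * UU a j ^ k
      + L * G k x (a j) * sh (a j) R *
        (- C (k : ℝ) * UU a j ^ k * UU a j * d⁄dX ℝ (BB a j)) := by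
    rw [hH, Derivation.leibniz, Derivation.leibniz, Derivation.leibniz, d_sh, hLd,
      d_UU_pow a ha]
    simp only [smul_eq_mul]
    ring
  have hc3 : (C (((k : ℝ) + 3 / 2) * x) : ℝ⟦X⟧) = C (((k : ℝ) + 1 / 2) * x) + C x := by
    rw [← map_add]; congr 1; ring
  have key : G k x (a j) * sh (a j) (Dop a k x R) * UU a j ^ (k + 1)
      = X * d⁄dX ℝ H - C (k : ℝ) * H := by
    rw [hsh, hHd, hH, hc3, pow_succ]
    linear_combination (-(X * sh (a j) R * UU a j ^ k)) * hode +
      (G k x (a j) * (C (((k : ℝ) + 1 / 2) * x) + C x) * sh (a j) R * X * UU a j ^ k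
        + G k x (a j) * L * sh (a j) (Polynomial.derivative R) * X * UU a j ^ k
        - C (k : ℝ) * G k x (a j) * L * sh (a j) R * UU a j ^ k) * hBU
  rw [psi_apply, key, map_sub, coeff_C_mul]
  cases k with
  | zero => simp
  | succ k =>
    rw [coeff_succ_X_mul, coeff_derivative]
    push_cast
    ring

end Pool.Agent.Helper15.Pade
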