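import Pool.Agent.Helper15.Nonvanish

set_option autoImplicit false

namespace Pool.Agent.Helper15.Pade

open PowerSeries Finset
open scoped Polynomial

variable (a : Fin 3 → ℝ)

noncomputable def W (e : Fin 3 → ℕ) (j : Fin 3) : ℝ⟦X⟧ := ∏ h ∈ univ.erase j, U (a j - a h) ^ e h

/-- Sum of residues of `Q / ∏ (X - a j) ^ e j`. -/
noncomputable def phi (e : Fin 3 → ℕ) (Q : ℝ[X]) : ℝ :=
  ∑ j, if e j = 0 then 0 else coeff (e j - 1) (sh (a j) Q * W a e j)

theorem phi_add (e : Fin 3 → ℕ) (P Q : ℝ[X]) : phi a e (P + Q) = phi a e P + phi a e Q := by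
  rw [phi, phi, phi, ← Finset.sum_add_distrib]
  refine Finset.sum_congr rfl (fun j _ => ?_)
  split_ifs
  · simp
  · rw [map_add, add_mul, map_add]

theorem phi_C_mul (e : Fin 3 → ℕ) (c : ℝ) (Q : ℝ[X]) :
    phi a e (Polynomial.C c * Q) = c * phi a e Q := by
  rw [phi, phi, Finset.mul_sum]
  refine Finset.sum_congr rfl (fun j _ => ?_)
  split_ifs
  · simp
  · rw [map_mul (sh (a j)), sh_C, mul_assoc, coeff_C_mul]

theorem phi_step (ha : Function.Injective a) (e : Fin 3 → ℕ) (i : Fin 3) (hi : e i ≠ 0)
    (Q : ℝ[X]) : phi a e ((Polynomial.X - Polynomial.C (a i)) * Q)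
      = phi a (Function.update e i (e i - 1)) Q := by
  rw [phi, phi]
  refine Finset.sum_congr rfl (fun j _ => ?_)
  have hsh : sh (a j) (Polynomial.X - Polynomial.C (a i)) = X + C (a j - a i) := by
    rw [map_sub, sh_X, sh_C, map_sub]; ring
  by_cases hji : j = i
  · subst hji
    rw [if_neg hi, Function.update_self]
    have hW : W a (Function.update e j (e j - 1)) j = W a e j := by
      rw [W, W]
      refine Finset.prod_congr rfl (fun h hh => ?_)
      rw [Function.update_of_ne (Finset.mem_erase.1 hh).1]
    rw [hW, map_mul (sh (a j)), hsh, sub_self, map_zero, add_zero, mul_assoc]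
    obtain ⟨m, hm⟩ := Nat.exists_eq_succ_of_ne_zero hi
    rw [hm]
    cases m with
    | zero => simp
    | succ m =>
      simp only [Nat.succ_eq_add_one, Nat.add_sub_cancel]
      rw [coeff_succ_X_mul, if_neg (by omega)]
  · rw [Function.update_of_ne hji]
    split_ifs with h0
    · rfl
    · have hW : (X + C (a j - a i)) * W a e j = W a (Function.update e i (e i - 1)) j := by
        have him : i ∈ univ.erase j := Finset.mem_erase.2 ⟨fun h => hji h.symm, Finset.mem_univ i⟩
        rw [W, W, ← Finset.mul_prod_erase _ _ him, ← Finset.mul_prod_erase _ _ him,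
          Function.update_self]
        have hU : (X + C (a j - a i)) * U (a j - a i) = 1 :=
          U_mul _ (sub_ne_zero.2 (fun h => hji (ha h)))
        obtain ⟨m, hm⟩ := Nat.exists_eq_succ_of_ne_zero hi
        rw [hm, Nat.succ_eq_add_one, Nat.add_sub_cancel]
        have hrest : ∏ x ∈ (univ.erase j).erase i, U (a j - a x) ^ (Function.update e i m) x
            = ∏ x ∈ (univ.erase j).erase i, U (a j - a x) ^ e x := by
          refine Finset.prod_congr rfl (fun h hh => ?_)
          rw [Function.update_of_ne (Finset.mem_erase.1 hh).1]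
        rw [hrest, pow_succ]
        linear_combination (U (a j - a i) ^ m * ∏ x ∈ (univ.erase j).erase i, U (a j - a x) ^ e x) * hU
      rw [map_mul (sh (a j)), hsh, ← hW]
      congr 1
      ring

theorem phi_eq (ha : Function.Injective a) (n : ℕ) : ∀ (e : Fin 3 → ℕ), ∑ j, e j = n + 1 →
    ∀ Q : ℝ[X], Q.natDegree ≤ n → phi a e Q = Q.coeff n := by
  induction n with
  | zero =>
    intro e he Q hQ
    obtain ⟨i, _, hi⟩ : ∃ i ∈ univ, e i ≠ 0 := by
      apply Finset.exists_ne_zero_of_sum_ne_zero
      omega
    have hall : ∀ j, j ≠ i → e j = 0 := by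
      intro j hj
      have h1 : e i + e j ≤ ∑ j, e j := by
        have := Finset.sum_le_sum_of_subset (f := e) (Finset.subset_univ ({i, j} : Finset (Fin 3)))
        rwa [Finset.sum_pair (fun h => hj h.symm)] at this
      omega
    have hei : e i = 1 := by
      have : ∑ j, e j = e i := by
        rw [Finset.sum_eq_single i (fun j _ hj => hall j hj) (fun h => absurd (Finset.mem_univ i) h)]
      omega
    have hQc : Q = Polynomial.C (Q.coeff 0) * 1 := by
      rw [mul_one]
      exact Polynomial.eq_C_of_natDegree_le_zero hQ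
    have h1 : phi a e 1 = 1 := by
      rw [phi, Finset.sum_eq_single i (fun j _ hj => by rw [if_pos (hall j hj)])
        (fun h => absurd (Finset.mem_univ i) h), hei]
      have : W a e i = 1 := by
        rw [W]
        exact Finset.prod_eq_one (fun h hh => by rw [hall h (Finset.mem_erase.1 hh).1, pow_zero])
      rw [this]
      simp
    rw [hQc, phi_C_mul, h1]
    simp
  | succ n ih =>
    intro e he Q hQ
    obtain ⟨i, _, hi⟩ : ∃ i ∈ univ, e i ≠ 0 := by
      apply Finset.exists_ne_zero_of_sum_ne_zero
      omega
    have hsum : ∀ l, e l ≠ 0 → ∑ j, Function.update e l (e l - 1) j = n + 1 := by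
      intro l hl
      rw [Finset.sum_update_of_mem (Finset.mem_univ l), Finset.sdiff_singleton_eq_erase]
      have := Finset.add_sum_erase univ e (Finset.mem_univ l)
      omega
    have h1 : phi a e 1 = 0 := by
      by_cases hl : ∃ l, l ≠ i ∧ e l ≠ 0
      · obtain ⟨l, hli, hl⟩ := hl
        have e1 := phi_step a ha e i hi 1
        have e2 := phi_step a ha e l hl 1
        rw [ih _ (hsum i hi) 1 (by simp)] at e1
        rw [ih _ (hsum l hl) 1 (by simp)] at e2
        have e3 : phi a e (Polynomial.C (a l - a i) * 1) = 0 := by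
          have : (Polynomial.C (a l - a i) * 1 : ℝ[X]) = (Polynomial.X - Polynomial.C (a i)) * 1
              + Polynomial.C (-1) * ((Polynomial.X - Polynomial.C (a l)) * 1) := by
            simp only [Polynomial.C_sub, Polynomial.C_neg, Polynomial.C_1]
            ring
          rw [this, phi_add, phi_C_mul, e1, e2]
          ring
        rw [phi_C_mul] at e3
        rcases mul_eq_zero.1 e3 with h | h
        · exact absurd (ha (sub_eq_zero.1 h)) hli
        · exact h
      · push Not at hl
        have hall : ∀ j, j ≠ i → e j = 0 := hl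
        have hei : e i = n + 2 := by
          have : ∑ j, e j = e i := by
            rw [Finset.sum_eq_single i (fun j _ hj => hall j hj) (fun h => absurd (Finset.mem_univ i) h)]
          omega
        rw [phi, Finset.sum_eq_single i (fun j _ hj => by rw [if_pos (hall j hj)])
          (fun h => absurd (Finset.mem_univ i) h), hei]
        have : W a e i = 1 := by
          rw [W]
          exact Finset.prod_eq_one (fun h hh => by rw [hall h (Finset.mem_erase.1 hh).1, pow_zero])
        rw [this, if_neg (by omega), map_one, one_mul, coeff_one, if_neg (by omega)]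
    set Q1 := Q /ₘ (Polynomial.X - Polynomial.C (a i)) with hQ1
    have hdiv : Q = (Polynomial.X - Polynomial.C (a i)) * Q1 + Polynomial.C (Q.eval (a i)) * 1 := by
      have := Polynomial.modByMonic_add_div Q (Polynomial.X - Polynomial.C (a i))
      rw [Polynomial.modByMonic_X_sub_C_eq_C_eval] at this
      rw [mul_one]
      rw [add_comm] at this
      exact this.symm
    have hdeg : Q1.natDegree ≤ n := by
      rw [hQ1, Polynomial.natDegree_divByMonic _ (Polynomial.monic_X_sub_C _),
        Polynomial.natDegree_X_sub_C]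
      omega
    have hcoef : Q.coeff (n + 1) = Q1.coeff n := by
      conv_lhs => rw [hdiv]
      rw [sub_mul, Polynomial.coeff_add, Polynomial.coeff_sub, Polynomial.coeff_X_mul,
        Polynomial.coeff_C_mul, Polynomial.coeff_eq_zero_of_natDegree_lt (lt_of_le_of_lt hdeg (Nat.lt_succ_self n)),
        mul_one, Polynomial.coeff_C_of_ne_zero (Nat.succ_ne_zero n)]
      ring
    rw [hcoef]
    conv_lhs => rw [hdiv]
    rw [phi_add, phi_C_mul, h1, mul_zero, add_zero, phi_step a ha e i hi, ih _ (hsum i hi) Q1 hdeg]

end Pool.Agent.Helper15.Pade
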