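import Pool.Agent.Helper15.Residue
import Pool.Agent.Helper15.Binom

set_option autoImplicit false

namespace Pool.Agent.Helper15.Pade

open PowerSeries Finset
open scoped Polynomial

/-! ### Truncated weighted norm -/

noncomputable def nrm (K : ℕ) (F : ℝ⟦X⟧) : ℝ := ∑ m ∈ range (K + 1), |coeff m F| * (1 / 2) ^ m

theorem nrm_nonneg (K : ℕ) (F : ℝ⟦X⟧) : 0 ≤ nrm K F :=
  Finset.sum_nonneg (fun _ _ => by positivity)

theorem nrm_one (K : ℕ) : nrm K 1 = 1 := by
  rw [nrm, Finset.sum_range_succ']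
  simp [coeff_one]

theorem nrm_mul (K : ℕ) (F G : ℝ⟦X⟧) : nrm K (F * G) ≤ nrm K F * nrm K G := by
  classical
  set f : ℕ × ℕ → ℝ := fun p => (|coeff p.1 F| * (1 / 2) ^ p.1) * (|coeff p.2 G| * (1 / 2) ^ p.2)
    with hf
  have hf0 : ∀ p, 0 ≤ f p := fun p => by rw [hf]; positivity
  have h1 : nrm K (F * G) ≤ ∑ m ∈ range (K + 1), ∑ p ∈ antidiagonal m, f p := by
    refine Finset.sum_le_sum (fun m _ => ?_)
    rw [coeff_mul]
    calc |∑ p ∈ antidiagonal m, coeff p.1 F * coeff p.2 G| * (1 / 2) ^ m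
        ≤ (∑ p ∈ antidiagonal m, |coeff p.1 F * coeff p.2 G|) * (1 / 2) ^ m :=
          mul_le_mul_of_nonneg_right (Finset.abs_sum_le_sum_abs _ _) (by positivity)
      _ = ∑ p ∈ antidiagonal m, f p := by
          rw [Finset.sum_mul]
          refine Finset.sum_congr rfl (fun p hp => ?_)
          have : p.1 + p.2 = m := HasAntidiagonal.mem_antidiagonal.1 hp
          rw [hf, abs_mul, ← this, pow_add]
          ring
  set s : Finset (ℕ × ℕ) := (range (K + 1) ×ˢ range (K + 1)).filter (fun p => p.1 + p.2 ≤ K) with hs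
  have h2 : ∑ m ∈ range (K + 1), ∑ p ∈ antidiagonal m, f p = ∑ p ∈ s, f p := by
    rw [← Finset.sum_fiberwise_of_maps_to (s := s) (t := range (K + 1)) (g := fun p => p.1 + p.2)]
    · refine Finset.sum_congr rfl (fun m hm => ?_)
      refine Finset.sum_congr ?_ (fun _ _ => rfl)
      ext p
      simp only [hs, HasAntidiagonal.mem_antidiagonal, Finset.mem_filter, Finset.mem_product, Finset.mem_range] at hm ⊢
      constructor
      · intro h; refine ⟨⟨⟨?_, ?_⟩, ?_⟩, h⟩ <;> omega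
      · intro h; exact h.2
    · intro p hp
      simp only [hs, Finset.mem_filter, Finset.mem_product, Finset.mem_range] at hp ⊢
      omega
  have h3 : ∑ p ∈ s, f p ≤ ∑ p ∈ range (K + 1) ×ˢ range (K + 1), f p :=
    Finset.sum_le_sum_of_subset_of_nonneg (Finset.filter_subset _ _) (fun p _ _ => hf0 p)
  have h4 : ∑ p ∈ range (K + 1) ×ˢ range (K + 1), f p = nrm K F * nrm K G := by
    rw [nrm, nrm, Finset.sum_mul_sum, Finset.sum_product]
  linarith

theorem nrm_pow (K : ℕ) (F : ℝ⟦X⟧) (n : ℕ) : nrm K (F ^ n) ≤ nrm K F ^ n := by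
  induction n with
  | zero => rw [pow_zero, pow_zero, nrm_one]
  | succ n ih =>
    rw [pow_succ, pow_succ]
    exact le_trans (nrm_mul K _ _) (mul_le_mul_of_nonneg_right ih (nrm_nonneg K F))

theorem coeff_le_nrm (K m : ℕ) (hm : m ≤ K) (F : ℝ⟦X⟧) : |coeff m F| ≤ 2 ^ m * nrm K F := by
  have h1 : |coeff m F| * (1 / 2) ^ m ≤ nrm K F := by
    rw [nrm]
    exact Finset.single_le_sum (f := fun m => |coeff m F| * (1 / 2) ^ m)
      (fun _ _ => by positivity) (Finset.mem_range.2 (by omega))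
  have h2 : |coeff m F| = 2 ^ m * (|coeff m F| * (1 / 2) ^ m) := by
    rw [one_div, inv_pow]; field_simp
  rw [h2]
  exact mul_le_mul_of_nonneg_left h1 (by positivity)

theorem nrm_X_add_C (K : ℕ) (δ : ℝ) : nrm K (X + C δ) ≤ |δ| + 1 / 2 := by
  rw [nrm]
  have h : ∀ m ∈ range (K + 1), |coeff m (X + C δ : ℝ⟦X⟧)| * (1 / 2) ^ m ≤
      (if m = 0 then |δ| else 0) + (if m = 1 then 1 / 2 else 0) := by
    intro m _
    rw [map_add, coeff_X, coeff_C]
    rcases m with _ | _ | m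
    · simp
    · simp
    · simp
  refine le_trans (Finset.sum_le_sum h) ?_
  rw [Finset.sum_add_distrib, Finset.sum_ite_eq', Finset.sum_ite_eq', if_pos (by simp)]
  split_ifs <;> linarith

theorem sum_half_pow (K : ℕ) : ∑ m ∈ range (K + 1), (1 / 2 : ℝ) ^ m ≤ 2 := by
  rw [geom_sum_eq (by norm_num)]
  have : (0 : ℝ) < (1 / 2) ^ (K + 1) := by positivity
  rw [div_le_iff_of_neg (by norm_num)]
  linarith

theorem nrm_U (K : ℕ) (δ : ℝ) (hδ : 1 ≤ |δ|) : nrm K (U δ) ≤ 2 := by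
  refine le_trans ?_ (sum_half_pow K)
  refine Finset.sum_le_sum (fun m _ => ?_)
  rw [U, coeff_mk, abs_mul, abs_pow, abs_pow, abs_neg, abs_one, one_pow, one_mul, abs_inv]
  have : |δ|⁻¹ ^ (m + 1) ≤ 1 := pow_le_one₀ (by positivity) (inv_le_one_of_one_le₀ hδ)
  calc |δ|⁻¹ ^ (m + 1) * (1 / 2) ^ m ≤ 1 * (1 / 2) ^ m :=
        mul_le_mul_of_nonneg_right this (by positivity)
    _ = _ := one_mul _

theorem abs_choose_le (k l : ℕ) : |Ring.choose ((k : ℝ) + 1 / 2) l| ≤ 2 ^ k := by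
  induction k generalizing l with
  | zero =>
    simp only [Nat.cast_zero, zero_add, pow_zero]
    exact abs_choose_half_le l
  | succ k ih =>
    cases l with
    | zero =>
      simp only [Ring.choose_zero_right, abs_one]
      exact one_le_pow₀ (by norm_num)
    | succ l =>
      have : ((k + 1 : ℕ) : ℝ) + 1 / 2 = ((k : ℝ) + 1 / 2) + 1 := by push_cast; ring
      rw [this, Ring.choose_succ_succ]
      calc _ ≤ |Ring.choose ((k : ℝ) + 1 / 2) l| + |Ring.choose ((k : ℝ) + 1 / 2) (l + 1)| :=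
            abs_add_le _ _
        _ ≤ 2 ^ k + 2 ^ k := add_le_add (ih l) (ih (l + 1))
        _ = 2 ^ (k + 1) := by ring

theorem nrm_G (K k : ℕ) (x α : ℝ) (h1 : 1 / 2 ≤ 1 + α * x) (h2 : 1 + α * x ≤ 2)
    (h3 : |x| ≤ 1 / 2) : nrm K (G k x α) ≤ 2 * 4 ^ k := by
  have hpos : 0 < 1 + α * x := by linarith
  have hterm : ∀ m ∈ range (K + 1), |coeff m (G k x α)| * (1 / 2) ^ m ≤ 4 ^ k * (1 / 2) ^ m := by
    intro m _
    refine mul_le_mul_of_nonneg_right ?_ (by positivity)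
    rw [G, coeff_mk, abs_mul, abs_mul, abs_pow, abs_pow, abs_of_pos hpos]
    have e1 : (1 + α * x) ^ k ≤ 2 ^ k := pow_le_pow_left₀ hpos.le h2 k
    have e2 := abs_choose_le k m
    have e3 : |x / (1 + α * x)| ^ m ≤ 1 := by
      refine pow_le_one₀ (abs_nonneg _) ?_
      rw [abs_div, abs_of_pos hpos, div_le_one hpos]
      linarith
    calc (1 + α * x) ^ k * (|Ring.choose ((k : ℝ) + 1 / 2) m| * |x / (1 + α * x)| ^ m)
        ≤ 2 ^ k * (2 ^ k * 1) := by
          refine mul_le_mul e1 (mul_le_mul e2 e3 (by positivity) (by positivity))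
            (by positivity) (by positivity)
      _ = 4 ^ k := by rw [mul_one, ← mul_pow]; norm_num
  calc nrm K (G k x α) ≤ ∑ m ∈ range (K + 1), 4 ^ k * (1 / 2 : ℝ) ^ m := Finset.sum_le_sum hterm
    _ = 4 ^ k * ∑ m ∈ range (K + 1), (1 / 2 : ℝ) ^ m := by rw [Finset.mul_sum]
    _ ≤ 4 ^ k * 2 := mul_le_mul_of_nonneg_left (sum_half_pow K) (by positivity)
    _ = _ := by ring

variable (a : Fin 3 → ℝ)

theorem nrm_UU (K : ℕ) (ha1 : ∀ i j, i ≠ j → 1 ≤ |a i - a j|) (j : Fin 3) :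
    nrm K (UU a j) ≤ 4 := by
  have hprod : ∀ s : Finset (Fin 3), (∀ h ∈ s, h ≠ j) →
      nrm K (∏ h ∈ s, U (a j - a h)) ≤ 2 ^ s.card := by
    intro s
    induction s using Finset.induction_on with
    | empty => intro _; simp [nrm_one]
    | insert b s hb ih =>
      intro hs
      rw [Finset.prod_insert hb, Finset.card_insert_of_notMem hb, pow_succ']
      refine le_trans (nrm_mul K _ _) (mul_le_mul ?_ (ih (fun h hh => hs h (by simp [hh])))
        (nrm_nonneg K _) (by norm_num))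
      exact nrm_U K _ (ha1 j b (fun e => hs b (by simp) e.symm))
  have := hprod (univ.erase j) (fun h hh => (Finset.mem_erase.1 hh).1)
  rw [Finset.card_erase_of_mem (Finset.mem_univ j)] at this
  rw [UU]
  norm_num at this
  exact this

/-- Size of the coefficients. -/
theorem abs_psi_le (k : ℕ) (x M : ℝ) (ha1 : ∀ i j, i ≠ j → 1 ≤ |a i - a j|)
    (haM : ∀ j, |a j| ≤ M) (h1 : ∀ j, 1 / 2 ≤ 1 + a j * x) (h2 : ∀ j, 1 + a j * x ≤ 2)
    (h3 : |x| ≤ 1 / 2) (j : Fin 3) (r : ℕ) :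
    |psi a k x j (Polynomial.X ^ r)| ≤ 8 * 32 ^ k * (M + 1) ^ r := by
  have hM : 0 ≤ M := le_trans (abs_nonneg _) (haM j)
  rw [psi_apply]
  refine le_trans (coeff_le_nrm k k le_rfl _) ?_
  have e1 : nrm k (sh (a j) (Polynomial.X ^ r)) ≤ (M + 1) ^ r := by
    rw [map_pow, sh_X]
    refine le_trans (nrm_pow k _ r) (pow_le_pow_left₀ (nrm_nonneg k _) ?_ r)
    have := nrm_X_add_C k (a j)
    have := haM j
    linarith
  have e2 : nrm k (UU a j ^ (k + 1)) ≤ 4 ^ (k + 1) :=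
    le_trans (nrm_pow k _ _) (pow_le_pow_left₀ (nrm_nonneg k _) (nrm_UU a k ha1 j) _)
  have e3 := nrm_G k k x (a j) (h1 j) (h2 j) h3
  have e4 : nrm k (G k x (a j) * sh (a j) (Polynomial.X ^ r) * UU a j ^ (k + 1))
      ≤ (2 * 4 ^ k) * (M + 1) ^ r * 4 ^ (k + 1) := by
    refine le_trans (nrm_mul k _ _) (mul_le_mul (le_trans (nrm_mul k _ _)
      (mul_le_mul e3 e1 (nrm_nonneg k _) (by positivity))) e2 (nrm_nonneg k _) (by positivity))
  calc 2 ^ k * nrm k (G k x (a j) * sh (a j) (Polynomial.X ^ r) * UU a j ^ (k + 1))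
      ≤ 2 ^ k * ((2 * 4 ^ k) * (M + 1) ^ r * 4 ^ (k + 1)) :=
        mul_le_mul_of_nonneg_left e4 (by positivity)
    _ = 8 * (2 * 4 * 4) ^ k * (M + 1) ^ r := by rw [mul_pow, mul_pow]; ring
    _ = 8 * 32 ^ k * (M + 1) ^ r := by norm_num

end Pool.Agent.Helper15.Pade
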