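import Pool.Agent.Helper15.Size

set_option autoImplicit false

namespace Pool.Agent.Helper15.Pade

open PowerSeries Finset
open scoped Polynomial

theorem hasSum_binom (β y : ℝ) (hy : |y| < 1) :
    HasSum (fun j : ℕ => Ring.choose β j * y ^ j) ((1 + y) ^ β) := by
  have h := Real.one_add_rpow_hasFPowerSeriesOnBall_zero (a := β)
  have hmem : y ∈ Metric.eball (0 : ℝ) 1 := by
    rw [← ENNReal.ofReal_one, Metric.eball_ofReal]
    simpa using hy
  have h2 := h.hasSum hmem
  simp only [zero_add] at h2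
  have h3 : (fun n : ℕ => (_root_.binomialSeries ℝ β n) fun _ => y) =
      (fun j : ℕ => Ring.choose β j * y ^ j) := by
    funext n
    rw [binomialSeries_apply]
    simp
  rw [h3] at h2
  exact h2

theorem coeff_shift_pow (α : ℝ) (l m : ℕ) :
    coeff l ((X + C α : ℝ⟦X⟧) ^ m) = α ^ (m - l) * (m.choose l : ℝ) := by
  have h := Polynomial.coeff_X_add_C_pow α m l
  have h2 : ((Polynomial.X + Polynomial.C α : ℝ[X]) ^ m : ℝ[X]).toPowerSeries = (X + C α) ^ m := by
    simp
  rw [← h2, Polynomial.coeff_coe, h]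

theorem hasSum_local (k l : ℕ) (x α : ℝ) (h : |α * x| < 1) :
    HasSum (fun m : ℕ => Ring.choose ((k : ℝ) + 1 / 2) m * x ^ m * coeff l ((X + C α : ℝ⟦X⟧) ^ m))
      (Real.sqrt (1 + α * x) * coeff l (G k x α)) := by
  set r : ℝ := (k : ℝ) + 1 / 2 with hr
  set f : ℕ → ℝ := fun m => Ring.choose r m * x ^ m * coeff l ((X + C α : ℝ⟦X⟧) ^ m) with hf
  have hpos : 0 < 1 + α * x := by
    have := (abs_lt.1 h).1
    linarith
  have h0 : ∑ i ∈ range l, f i = 0 := by
    refine Finset.sum_eq_zero (fun i hi => ?_)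
    rw [hf]
    simp only
    rw [coeff_shift_pow, Nat.choose_eq_zero_of_lt (Finset.mem_range.1 hi)]
    simp
  have h1 : HasSum (fun i => f (i + l)) (Ring.choose r l * x ^ l * (1 + α * x) ^ (r - l)) := by
    have h2 := (hasSum_binom (r - l) (α * x) h).mul_left (Ring.choose r l * x ^ l)
    have h3 : (fun i => f (i + l)) =
        fun i => Ring.choose r l * x ^ l * (Ring.choose (r - l) i * (α * x) ^ i) := by
      funext i
      have hc := Ring.choose_smul_choose r (Nat.le_add_left l i)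
      rw [nsmul_eq_mul, Nat.add_sub_cancel] at hc
      have hfi : f (i + l) = Ring.choose r (i + l) * x ^ (i + l) *
          (α ^ (i + l - l) * ((i + l).choose l : ℝ)) := by
        rw [hf]
        simp only
        rw [coeff_shift_pow]
      rw [hfi, Nat.add_sub_cancel, pow_add, mul_pow]
      linear_combination (x ^ i * x ^ l * α ^ i) * hc
    rw [h3]
    exact h2
  have h2 := (hasSum_nat_add_iff l).1 h1
  rw [h0, add_zero] at h2
  have e1 : (1 + α * x) ^ (r - l) = (1 + α * x) ^ (1 / 2 : ℝ) * (1 + α * x) ^ k / (1 + α * x) ^ l := by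
    have : r - (l : ℝ) = 1 / 2 + (k : ℝ) - (l : ℝ) := by rw [hr]; ring
    rw [this, Real.rpow_sub hpos, Real.rpow_add hpos, Real.rpow_natCast, Real.rpow_natCast]
  have e2 : Real.sqrt (1 + α * x) * coeff l (G k x α) =
      Ring.choose r l * x ^ l * (1 + α * x) ^ (r - l) := by
    rw [G, coeff_mk, ← hr, Real.sqrt_eq_rpow, e1, div_pow]
    generalize Ring.choose r l = c
    field_simp
  rw [e2]
  exact h2

variable (a : Fin 3 → ℝ)

theorem W_const (k : ℕ) (j : Fin 3) : W a (fun _ => k + 1) j = UU a j ^ (k + 1) := by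
  rw [W, UU, Finset.prod_pow]

theorem hasSum_psi (k r : ℕ) (x : ℝ) (h : ∀ j, |a j * x| < 1) :
    HasSum (fun m : ℕ => Ring.choose ((k : ℝ) + 1 / 2) m * x ^ m *
        phi a (fun _ => k + 1) (Polynomial.X ^ (m + r)))
      (∑ j, Real.sqrt (1 + a j * x) * psi a k x j (Polynomial.X ^ r)) := by
  have h1 : ∀ j, HasSum (fun m : ℕ => Ring.choose ((k : ℝ) + 1 / 2) m * x ^ m *
      coeff k (sh (a j) (Polynomial.X ^ (m + r)) * W a (fun _ => k + 1) j))
      (Real.sqrt (1 + a j * x) * psi a k x j (Polynomial.X ^ r)) := by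
    intro j
    set F : ℝ⟦X⟧ := sh (a j) (Polynomial.X ^ r) * UU a j ^ (k + 1) with hF
    have e1 : Real.sqrt (1 + a j * x) * psi a k x j (Polynomial.X ^ r) =
        ∑ p ∈ HasAntidiagonal.antidiagonal k,
          (Real.sqrt (1 + a j * x) * coeff p.1 (G k x (a j))) * coeff p.2 F := by
      rw [psi_apply, mul_assoc (G k x (a j)), coeff_mul, Finset.mul_sum]
      exact Finset.sum_congr rfl (fun p _ => by rw [hF]; ring)
    have e2 : (fun m : ℕ => Ring.choose ((k : ℝ) + 1 / 2) m * x ^ m *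
        coeff k (sh (a j) (Polynomial.X ^ (m + r)) * W a (fun _ => k + 1) j)) =
        fun m => ∑ p ∈ HasAntidiagonal.antidiagonal k,
          (Ring.choose ((k : ℝ) + 1 / 2) m * x ^ m * coeff p.1 ((X + C (a j) : ℝ⟦X⟧) ^ m))
            * coeff p.2 F := by
      funext m
      have e3 : sh (a j) (Polynomial.X ^ (m + r)) * W a (fun _ => k + 1) j
          = (X + C (a j)) ^ m * F := by
        rw [W_const, hF, pow_add, map_mul, map_pow, sh_X, mul_assoc]
      rw [e3, coeff_mul, Finset.mul_sum]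
      exact Finset.sum_congr rfl (fun p _ => by ring)
    rw [e1, e2]
    exact hasSum_sum (fun p _ => (hasSum_local k p.1 x (a j) (h j)).mul_right _)
  have h2 := hasSum_sum (fun j (_ : j ∈ (Finset.univ : Finset (Fin 3))) => h1 j)
  have h3 : (fun m : ℕ => Ring.choose ((k : ℝ) + 1 / 2) m * x ^ m *
        phi a (fun _ => k + 1) (Polynomial.X ^ (m + r))) = fun m => ∑ j,
        Ring.choose ((k : ℝ) + 1 / 2) m * x ^ m *
        coeff k (sh (a j) (Polynomial.X ^ (m + r)) * W a (fun _ => k + 1) j) := by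
    funext m
    rw [phi, Finset.mul_sum]
    refine Finset.sum_congr rfl (fun j _ => ?_)
    rw [if_neg (Nat.succ_ne_zero k), Nat.add_sub_cancel]
  rw [h3]
  exact h2

theorem phi_zero (ha : Function.Injective a) (k m : ℕ) (hm : m < 3 * k + 2) :
    phi a (fun _ => k + 1) (Polynomial.X ^ m) = 0 := by
  rw [phi_eq a ha (3 * k + 2) (fun _ => k + 1) (by simp; ring) _
    (by rw [Polynomial.natDegree_X_pow]; omega), Polynomial.coeff_X_pow, if_neg (by omega)]

theorem abs_phi_le (k m : ℕ) (M : ℝ) (ha1 : ∀ i j, i ≠ j → 1 ≤ |a i - a j|)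
    (haM : ∀ j, |a j| ≤ M) :
    |phi a (fun _ => k + 1) (Polynomial.X ^ m)| ≤ 12 * 8 ^ k * (M + 1) ^ m := by
  have hM : 0 ≤ M := le_trans (abs_nonneg _) (haM 0)
  have hj : ∀ j, |coeff k (sh (a j) (Polynomial.X ^ m) * W a (fun _ => k + 1) j)|
      ≤ 4 * 8 ^ k * (M + 1) ^ m := by
    intro j
    rw [W_const]
    refine le_trans (coeff_le_nrm k k le_rfl _) ?_
    have e1 : nrm k (sh (a j) (Polynomial.X ^ m)) ≤ (M + 1) ^ m := by
      rw [map_pow, sh_X]
      refine le_trans (nrm_pow k _ m) (pow_le_pow_left₀ (nrm_nonneg k _) ?_ m)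
      have := nrm_X_add_C k (a j)
      have := haM j
      linarith
    have e2 : nrm k (UU a j ^ (k + 1)) ≤ 4 ^ (k + 1) :=
      le_trans (nrm_pow k _ _) (pow_le_pow_left₀ (nrm_nonneg k _) (nrm_UU a k ha1 j) _)
    calc 2 ^ k * nrm k (sh (a j) (Polynomial.X ^ m) * UU a j ^ (k + 1))
        ≤ 2 ^ k * ((M + 1) ^ m * 4 ^ (k + 1)) :=
          mul_le_mul_of_nonneg_left (le_trans (nrm_mul k _ _)
            (mul_le_mul e1 e2 (nrm_nonneg k _) (by positivity))) (by positivity)
      _ = 4 * (2 * 4) ^ k * (M + 1) ^ m := by rw [mul_pow]; ring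
      _ = _ := by norm_num
  rw [phi]
  refine le_trans (Finset.abs_sum_le_sum_abs _ _) ?_
  have h2 : ∀ j ∈ (univ : Finset (Fin 3)), |if (fun _ : Fin 3 => k + 1) j = 0 then (0 : ℝ) else
      coeff ((fun _ : Fin 3 => k + 1) j - 1) (sh (a j) (Polynomial.X ^ m) * W a (fun _ => k + 1) j)|
      ≤ 4 * 8 ^ k * (M + 1) ^ m := by
    intro j _
    rw [if_neg (Nat.succ_ne_zero k)]
    simpa using hj j
  refine le_trans (Finset.sum_le_sum h2) ?_
  rw [Finset.sum_const, Finset.card_univ, Fintype.card_fin, nsmul_eq_mul]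
  push_cast
  linarith

/-- Smallness of the linear form. -/
theorem small (ha : Function.Injective a) (k r : ℕ) (hr : r ≤ 2) (x M : ℝ)
    (ha1 : ∀ i j, i ≠ j → 1 ≤ |a i - a j|) (haM : ∀ j, |a j| ≤ M) (hx : 0 < x)
    (hMx : (M + 1) * x ≤ 1 / 2) :
    |∑ j, Real.sqrt (1 + a j * x) * psi a k x j (Polynomial.X ^ r)| ≤
      24 * 16 ^ k * (M + 1) ^ (3 * k + 2) * x ^ (3 * k + 2 - r) := by
  have hM : 0 ≤ M := le_trans (abs_nonneg _) (haM 0)
  have hajx : ∀ j, |a j * x| < 1 := by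
    intro j
    rw [abs_mul, abs_of_pos hx]
    have := mul_le_mul_of_nonneg_right (haM j) hx.le
    nlinarith
  have hs := hasSum_psi a k r x hajx
  set m0 := 3 * k + 2 - r with hm0
  set f : ℕ → ℝ := fun m : ℕ => Ring.choose ((k : ℝ) + 1 / 2) m * x ^ m *
        phi a (fun _ => k + 1) (Polynomial.X ^ (m + r)) with hf
  have h0 : ∑ i ∈ range m0, f i = 0 := by
    refine Finset.sum_eq_zero (fun i hi => ?_)
    have : i < m0 := Finset.mem_range.1 hi
    rw [hf]
    simp only
    rw [phi_zero a ha k (i + r) (by omega), mul_zero]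
  have hs2 : HasSum (fun i => f (i + m0))
      (∑ j, Real.sqrt (1 + a j * x) * psi a k x j (Polynomial.X ^ r)) := by
    rw [hasSum_nat_add_iff m0, h0, add_zero]
    exact hs
  set B : ℝ := 12 * 16 ^ k * (M + 1) ^ (3 * k + 2) * x ^ m0 with hB
  have hB0 : 0 ≤ B := by positivity
  have hbound : ∀ i, ‖f (i + m0)‖ ≤ B * (1 / 2) ^ i := by
    intro i
    rw [Real.norm_eq_abs, hf]
    simp only
    rw [abs_mul, abs_mul, abs_pow, abs_of_pos hx]
    have e1 := abs_choose_le k (i + m0)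
    have e2 := abs_phi_le a k (i + m0 + r) M ha1 haM
    have e3 : ((M + 1) * x) ^ i ≤ (1 / 2) ^ i := pow_le_pow_left₀ (by positivity) hMx i
    have e4 : i + m0 + r = (3 * k + 2) + i := by omega
    rw [e4] at e2 ⊢
    calc |Ring.choose ((k : ℝ) + 1 / 2) (i + m0)| * x ^ (i + m0) *
          |phi a (fun _ => k + 1) (Polynomial.X ^ (3 * k + 2 + i))|
        ≤ 2 ^ k * x ^ (i + m0) * (12 * 8 ^ k * (M + 1) ^ (3 * k + 2 + i)) := by
          refine mul_le_mul (mul_le_mul_of_nonneg_right e1 (by positivity)) e2 (abs_nonneg _)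
            (by positivity)
      _ = 12 * (2 * 8) ^ k * (M + 1) ^ (3 * k + 2) * x ^ m0 * ((M + 1) * x) ^ i := by
          rw [mul_pow, mul_pow, pow_add, pow_add]; ring
      _ = B * ((M + 1) * x) ^ i := by rw [hB]; norm_num
      _ ≤ B * (1 / 2) ^ i := mul_le_mul_of_nonneg_left e3 hB0
  have hg : HasSum (fun i : ℕ => B * (1 / 2 : ℝ) ^ i) (B * 2) := by
    have := (hasSum_geometric_of_lt_one (by norm_num : (0 : ℝ) ≤ 1 / 2) (by norm_num)).mul_left B
    have h2 : (1 - 1 / 2 : ℝ)⁻¹ = 2 := by norm_num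
    rwa [h2] at this
  have := tsum_of_norm_bounded hg hbound
  rw [hs2.tsum_eq, Real.norm_eq_abs] at this
  refine le_trans this (le_of_eq ?_)
  rw [hB]; ring

end Pool.Agent.Helper15.Pade
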